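import Mathlib

set_option autoImplicit false

/-!
# Graph bootstrap percolation: definitions and the copy criterion
-/

open SimpleGraph

namespace Pool.Agent.Q105.Boot

/-- One round of the `H`-process: every non-edge whose addition increases the number of subgraphs
isomorphic to `H` is added. -/
noncomputable def step {V W : Type} [Fintype V] (H : SimpleGraph W) (G : SimpleGraph V) :
    SimpleGraph V where
  Adj u v := G.Adj u v ∨ (u ≠ v ∧ G.copyCount H < (G ⊔ edge u v).copyCount H)
  symm := ⟨by
    intro u v h
    rcases h with h | ⟨h, h'⟩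
    · exact Or.inl h.symm
    · exact Or.inr ⟨h.symm, by rw [edge_comm]; exact h'⟩⟩
  loopless := ⟨by
    intro u h
    rcases h with h | ⟨h, -⟩
    · exact G.loopless.irrefl u h
    · exact h rfl⟩

/-- The `H`-process started at `G`. -/
noncomputable def process {V W : Type} [Fintype V] (H : SimpleGraph W) (G : SimpleGraph V)
    (i : ℕ) : SimpleGraph V := (step H)^[i] G

/-- The running time. -/
noncomputable def tau {V W : Type} [Fintype V] (H : SimpleGraph W) (G : SimpleGraph V) : ℕ :=
  sInf {t | process H G t = process H G (t + 1)}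

/-- The starting graph `G` percolates. -/
def Percolates {V W : Type} [Fintype V] (H : SimpleGraph W) (G : SimpleGraph V) : Prop :=
  process H G (tau H G) = ⊤

/-- The maximum running time over all starting graphs with `n` vertices. -/
noncomputable def maxTime {W : Type} (H : SimpleGraph W) (n : ℕ) : ℕ :=
  sSup {t | ∃ (V : Type) (_ : Fintype V) (G : SimpleGraph V), Fintype.card V = n ∧ tau H G = t}

/-- The maximum running time over all percolating starting graphs with `n` vertices. -/
noncomputable def maxPercTime {W : Type} (H : SimpleGraph W) (n : ℕ) : ℕ :=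
  sSup {t | ∃ (V : Type) (_ : Fintype V) (G : SimpleGraph V), Fintype.card V = n ∧
    Percolates H G ∧ tau H G = t}

section criterion

variable {V W : Type} [Fintype V]

/-- A copy of `H` in `G + uv` that uses the edge `uv`. -/
def Completes (H : SimpleGraph W) (G : SimpleGraph V) (u v : V) : Prop :=
  ∃ f : W → V, Function.Injective f ∧
    (∀ p q, H.Adj p q → G.Adj (f p) (f q) ∨ s(f p, f q) = s(u, v)) ∧
    ∃ p q, H.Adj p q ∧ f p = u ∧ f q = v

omit [Fintype V] in
lemma sup_edge_adj_iff {G : SimpleGraph V} {u v : V} (huv : u ≠ v) (a b : V) :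
    (G ⊔ edge u v).Adj a b ↔ G.Adj a b ∨ s(a, b) = s(u, v) := by
  rw [sup_adj, adj_edge]
  constructor
  · rintro (h | ⟨h, -⟩)
    · exact Or.inl h
    · exact Or.inr h.symm
  · rintro (h | h)
    · exact Or.inl h
    · refine Or.inr ⟨h.symm, ?_⟩
      rintro rfl
      rw [Sym2.eq_iff] at h
      rcases h with ⟨h1, h2⟩ | ⟨h1, h2⟩
      · exact huv (h1.symm.trans h2)
      · exact huv (h2.symm.trans h1)

/-- The number of copies increases iff some copy uses the new edge. -/
lemma copyCount_lt_iff (H : SimpleGraph W) (G : SimpleGraph V) {u v : V} (huv : u ≠ v)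
    (hn : ¬ G.Adj u v) :
    G.copyCount H < (G ⊔ edge u v).copyCount H ↔ Completes H G u v := by
  classical
  have hle : G ≤ G ⊔ edge u v := le_sup_left
  set G' := G ⊔ edge u v with hG'
  have hadj : ∀ a b, G'.Adj a b ↔ G.Adj a b ∨ s(a, b) = s(u, v) := sup_edge_adj_iff huv
  let A : Finset G.Subgraph := {S | Nonempty (H ≃g S.coe)}
  let B : Finset G'.Subgraph := {S | Nonempty (H ≃g S.coe)}
  let φ : G.Subgraph → G'.Subgraph := fun S => S.map (Hom.ofLE hle)
  have hφadj : ∀ (S : G.Subgraph) a b, (φ S).Adj a b ↔ S.Adj a b := by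
    intro S a b
    simp only [φ, Subgraph.map_adj, Relation.map_apply]
    constructor
    · rintro ⟨x, y, h, rfl, rfl⟩
      exact h
    · intro h
      exact ⟨a, b, h, rfl, rfl⟩
  have hφverts : ∀ (S : G.Subgraph), (φ S).verts = S.verts := by
    intro S
    ext a
    simp [φ]
  have hφ : Function.Injective φ := by
    intro S S' h
    ext a b
    · rw [← hφverts S, h, hφverts]
    · rw [← hφadj S, h, hφadj]
  have hAB : A.image φ ⊆ B := by
    intro S hS
    rw [Finset.mem_image] at hS
    obtain ⟨S0, hS0, rfl⟩ := hS
    rw [Finset.mem_filter] at hS0 ⊢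
    obtain ⟨i⟩ := hS0.2
    refine ⟨Finset.mem_univ _, ⟨?_⟩⟩
    exact i.trans ((Copy.ofLE _ _ hle).isoSubgraphMap S0)
  have hcard : (A.image φ).card = A.card := Finset.card_image_of_injective _ hφ
  have hA : G.copyCount H = A.card := by
    unfold copyCount
    apply congrArg Finset.card
    ext S
    simp [A]
  have hB : G'.copyCount H = B.card := by
    unfold copyCount
    apply congrArg Finset.card
    ext S
    simp [B]
  rw [hA, hB]
  constructor
  · intro hlt
    obtain ⟨S, hSB, hSA⟩ : ∃ S ∈ B, S ∉ A.image φ := by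
      by_contra hcon
      push Not at hcon
      have := Finset.card_le_card (show B ⊆ A.image φ from hcon)
      omega
    rw [Finset.mem_filter] at hSB
    obtain ⟨i⟩ := hSB.2
    have hSuv : S.Adj u v := by
      by_contra hSn
      apply hSA
      have hsub : ∀ {a b}, S.Adj a b → G.Adj a b := by
        intro a b hab
        rcases (hadj a b).1 (S.adj_sub hab) with h | h
        · exact h
        · exfalso
          rw [Sym2.eq_iff] at h
          rcases h with ⟨h1, h2⟩ | ⟨h1, h2⟩
          · subst h1; subst h2; exact hSn hab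
          · subst h1; subst h2; exact hSn hab.symm
      let S0 : G.Subgraph :=
        { verts := S.verts
          Adj := S.Adj
          adj_sub := hsub
          edge_vert := S.edge_vert
          symm := S.symm }
      have hS0 : φ S0 = S := by
        ext a b
        · rw [hφverts]
        · rw [hφadj]
      rw [Finset.mem_image]
      refine ⟨S0, ?_, hS0⟩
      rw [Finset.mem_filter]
      refine ⟨Finset.mem_univ _, ⟨?_⟩⟩
      exact ⟨i.toEquiv, fun {a b} => i.map_rel_iff'⟩
    refine ⟨fun w => (i w : V), ?_, ?_, ?_⟩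
    · intro a b hab
      exact i.injective (Subtype.ext hab)
    · intro p q hpq
      rw [← hadj]
      have h1 : S.coe.Adj (i p) (i q) := i.map_adj_iff.2 hpq
      exact S.adj_sub h1
    · refine ⟨i.symm ⟨u, S.edge_vert hSuv⟩, i.symm ⟨v, S.edge_vert hSuv.symm⟩, ?_, ?_, ?_⟩
      · rw [i.symm.map_adj_iff]
        exact hSuv
      · simp
      · simp
  · rintro ⟨f, hf, hfadj, p, q, hpq, rfl, rfl⟩
    let g : Copy H G' := ⟨⟨f, fun {a b} hab => (hadj _ _).2 (hfadj a b hab)⟩, hf⟩
    have hS : g.toSubgraph ∈ B := by
      rw [Finset.mem_filter]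
      exact ⟨Finset.mem_univ _, ⟨g.isoToSubgraph⟩⟩
    have hS2 : g.toSubgraph ∉ A.image φ := by
      intro hmem
      rw [Finset.mem_image] at hmem
      obtain ⟨S0, -, hS0⟩ := hmem
      apply hn
      apply S0.adj_sub
      rw [← hφadj S0, hS0]
      show Relation.Map _ _ _ _ _
      exact ⟨p, q, hpq, rfl, rfl⟩
    have h1 : (A.image φ).card < B.card :=
      Finset.card_lt_card ⟨hAB, fun h => hS2 (h hS)⟩
    omega

/-- Adjacency after one round. -/
lemma step_adj (H : SimpleGraph W) (G : SimpleGraph V) (u v : V) :
    (step H G).Adj u v ↔ G.Adj u v ∨ (u ≠ v ∧ Completes H G u v) := by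
  show (G.Adj u v ∨ (u ≠ v ∧ G.copyCount H < (G ⊔ edge u v).copyCount H)) ↔ _
  by_cases hn : G.Adj u v
  · simp [hn]
  · constructor
    · rintro (h | ⟨h1, h2⟩)
      · exact Or.inl h
      · exact Or.inr ⟨h1, (copyCount_lt_iff H G h1 hn).1 h2⟩
    · rintro (h | ⟨h1, h2⟩)
      · exact Or.inl h
      · exact Or.inr ⟨h1, (copyCount_lt_iff H G h1 hn).2 h2⟩

lemma le_step (H : SimpleGraph W) (G : SimpleGraph V) : G ≤ step H G := by
  intro u v h
  rw [step_adj]
  exact Or.inl h

lemma process_succ (H : SimpleGraph W) (G : SimpleGraph V) (i : ℕ) :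
    process H G (i + 1) = step H (process H G i) := Function.iterate_succ_apply' _ _ _

lemma process_le_succ (H : SimpleGraph W) (G : SimpleGraph V) (i : ℕ) :
    process H G i ≤ process H G (i + 1) := by
  rw [process_succ]
  exact le_step _ _

lemma process_mono (H : SimpleGraph W) (G : SimpleGraph V) : Monotone (process H G) :=
  monotone_nat_of_le_succ (process_le_succ H G)

lemma tau_le_of_eq (H : SimpleGraph W) (G : SimpleGraph V) {t : ℕ}
    (h : process H G t = process H G (t + 1)) : tau H G ≤ t := Nat.sInf_le h

lemma process_stable (H : SimpleGraph W) (G : SimpleGraph V) {t : ℕ}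
    (h : process H G t = process H G (t + 1)) (s : ℕ) : process H G (t + s) = process H G t := by
  induction s with
  | zero => rfl
  | succ s ih =>
    rw [← Nat.add_assoc, process_succ, ih, ← process_succ, ← h]

/-- The process is stationary after at most `n ^ 2` rounds. -/
lemma exists_stable (H : SimpleGraph W) (G : SimpleGraph V) :
    ∃ t ≤ Fintype.card V ^ 2, process H G t = process H G (t + 1) := by
  classical
  by_contra hcon
  push Not at hcon
  have key : ∀ t, t ≤ Fintype.card V ^ 2 + 1 →
      t ≤ ({x : V × V | (process H G t).Adj x.1 x.2} : Set (V × V)).ncard := by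
    intro t
    induction t with
    | zero => intro _; exact Nat.zero_le _
    | succ t ih =>
      intro ht
      have h1 := ih (by omega)
      have hlt : process H G t < process H G (t + 1) :=
        lt_of_le_of_ne (process_le_succ H G t) (hcon t (by omega))
      have h2 : ({x : V × V | (process H G t).Adj x.1 x.2} : Set (V × V)).ncard <
          ({x : V × V | (process H G (t + 1)).Adj x.1 x.2} : Set (V × V)).ncard := by
        apply Set.ncard_lt_ncard _ (Set.toFinite _)
        refine ⟨fun x hx => hlt.le hx, fun hsub => hlt.not_ge ?_⟩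
        intro a b hab
        exact hsub (show (a, b) ∈ _ from hab)
      omega
  have h1 := key (Fintype.card V ^ 2 + 1) le_rfl
  have h2 : ({x : V × V | (process H G (Fintype.card V ^ 2 + 1)).Adj x.1 x.2} :
      Set (V × V)).ncard ≤ Fintype.card V ^ 2 := by
    refine (Set.ncard_le_ncard (Set.subset_univ _) (Set.toFinite _)).trans ?_
    rw [Set.ncard_univ, Nat.card_eq_fintype_card, Fintype.card_prod, pow_two]
  omega

lemma tau_le_sq (H : SimpleGraph W) (G : SimpleGraph V) : tau H G ≤ Fintype.card V ^ 2 := by
  obtain ⟨t, ht, h⟩ := exists_stable H G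
  exact (tau_le_of_eq H G h).trans ht

lemma process_tau (H : SimpleGraph W) (G : SimpleGraph V) :
    process H G (tau H G) = process H G (tau H G + 1) := by
  obtain ⟨t, -, h⟩ := exists_stable H G
  exact Nat.sInf_mem (s := {t | process H G t = process H G (t + 1)}) ⟨t, h⟩

lemma lt_tau_of_ne (H : SimpleGraph W) (G : SimpleGraph V) {T : ℕ}
    (h : ∀ t < T, process H G t ≠ process H G (t + 1)) : T ≤ tau H G := by
  by_contra hcon
  push Not at hcon
  exact h _ hcon (process_tau H G)

end criterion

lemma tau_le_maxTime {V W : Type} [Fintype V] (H : SimpleGraph W) (G : SimpleGraph V) :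
    tau H G ≤ maxTime H (Fintype.card V) := by
  apply le_csSup
  · refine ⟨Fintype.card V ^ 2, ?_⟩
    rintro t ⟨V', i, G', hc, rfl⟩
    rw [← hc]
    exact tau_le_sq H G'
  · exact ⟨V, inferInstance, G, rfl, rfl⟩

lemma maxPercTime_le {W : Type} (H : SimpleGraph W) (n B : ℕ)
    (h : ∀ (V : Type) [Fintype V] (G : SimpleGraph V), Fintype.card V = n →
      Percolates H G → tau H G ≤ B) : maxPercTime H n ≤ B := by
  rcases Set.eq_empty_or_nonempty {t | ∃ (V : Type) (_ : Fintype V) (G : SimpleGraph V),
      Fintype.card V = n ∧ Percolates H G ∧ tau H G = t} with he | hne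
  · rw [maxPercTime, he]
    simp
  · apply csSup_le hne
    rintro t ⟨V, i, G, hc, hp, rfl⟩
    exact h V G hc hp

end Pool.Agent.Q105.Boot
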