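import Mathlib
import Pool.Agent.Q105.Boot.Basic

set_option autoImplicit false

/-!
# Linear running time of percolating graphs for the rule `K_5 ⊔ (K_6 + ear)`
-/

open SimpleGraph

namespace Pool.Agent.Q105.Boot

/-- Adjacency of the rule graph: a `K_5` on `Fin 5`, a `K_6` on `Fin 6` and an ear vertex joined to
the vertices `0` and `1` of the `K_6`. -/
def ruleAdj : Fin 5 ⊕ Option (Fin 6) → Fin 5 ⊕ Option (Fin 6) → Prop
  | Sum.inl i, Sum.inl j => i ≠ j
  | Sum.inr (some i), Sum.inr (some j) => i ≠ j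
  | Sum.inr none, Sum.inr (some j) => j = 0 ∨ j = 1
  | Sum.inr (some i), Sum.inr none => i = 0 ∨ i = 1
  | _, _ => False

instance : DecidableRel ruleAdj := fun p q => by
  rcases p with i | (_ | i) <;> rcases q with j | (_ | j) <;> unfold ruleAdj <;> infer_instance

/-- The rule graph: the disjoint union of `K_5` and `K_6` with an ear. -/
def rule : SimpleGraph (Fin 5 ⊕ Option (Fin 6)) where
  Adj := ruleAdj
  symm := ⟨by decide⟩
  loopless := ⟨by decide⟩

instance : DecidableRel rule.Adj := inferInstanceAs (DecidableRel ruleAdj)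

lemma rule_triangle (p q : Fin 5 ⊕ Option (Fin 6)) (h : rule.Adj p q) :
    ∃ r, rule.Adj p r ∧ rule.Adj q r := by
  have key : ∀ p q, rule.Adj p q → ∃ r, rule.Adj p r ∧ rule.Adj q r := by decide
  exact key p q h

variable {V : Type}

lemma exists_enum (S : Finset V) (k : ℕ) (h : k ≤ S.card) :
    ∃ g : Fin k → V, Function.Injective g ∧ ∀ i, g i ∈ S := by
  obtain ⟨S', hS', hc⟩ := Finset.exists_subset_card_eq h
  let e := S'.equivFinOfCardEq hc
  refine ⟨fun i => (e.symm i : V), ?_, fun i => hS' (e.symm i).2⟩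
  intro i j hij
  exact e.symm.injective (Subtype.ext hij)

/-- `K_5` minus the edge `ab` (possibly with the edge). -/
def Cfg (G : SimpleGraph V) (a b x y z : V) : Prop :=
  a ≠ b ∧ G.Adj x y ∧ G.Adj y z ∧ G.Adj x z ∧ G.Adj a x ∧ G.Adj a y ∧ G.Adj a z ∧
    G.Adj b x ∧ G.Adj b y ∧ G.Adj b z

variable [Fintype V]

lemma add_K5 {G : SimpleGraph V} {a b x y z : V} (h : Cfg G a b x y z) (R : Finset V)
    (hR : G.IsClique (R : Set V)) (hc : 7 ≤ R.card)
    (hd : a ∉ R ∧ b ∉ R ∧ x ∉ R ∧ y ∉ R ∧ z ∉ R) : (step rule G).Adj a b := by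
  obtain ⟨hab, hxy, hyz, hxz, hax, hay, haz, hbx, hby, hbz⟩ := h
  obtain ⟨g, hg, hgR⟩ := exists_enum R 7 hc
  obtain ⟨ha, hb, hx, hy, hz⟩ := hd
  rw [step_adj]
  refine Or.inr ⟨hab, ?_⟩
  have h1 : ∀ i j : Fin 5, i ≠ j → ![a, b, x, y, z] i ≠ ![a, b, x, y, z] j ∧
      (G.Adj (![a, b, x, y, z] i) (![a, b, x, y, z] j) ∨
        s(![a, b, x, y, z] i, ![a, b, x, y, z] j) = s(a, b)) := by
    intro i j hij
    fin_cases i <;> fin_cases j <;>
      simp [hab, hab.symm, hxy, hyz, hxz, hax, hay, haz, hbx, hby, hbz, hxy.symm, hyz.symm,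
        hxz.symm, hax.symm, hay.symm, haz.symm, hbx.symm, hby.symm, hbz.symm, hxy.ne, hyz.ne,
        hxz.ne, hax.ne, hay.ne, haz.ne, hbx.ne, hby.ne, hbz.ne, hxy.ne.symm, hyz.ne.symm,
        hxz.ne.symm, hax.ne.symm, hay.ne.symm, haz.ne.symm, hbx.ne.symm, hby.ne.symm,
        hbz.ne.symm] at hij ⊢
  have h2 : ∀ i : Fin 5, ![a, b, x, y, z] i ∉ R := by
    intro i
    fin_cases i <;> simp [ha, hb, hx, hy, hz]
  let F : Option (Fin 6) → V := fun o => g (o.elim 6 (fun i => i.castSucc))
  have hF : Function.Injective F := by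
    intro o o' h
    have h' := hg h
    rcases o with _ | i <;> rcases o' with _ | j
    · rfl
    · exfalso
      simp only [Option.elim] at h'
      have := congrArg Fin.val h'
      simp at this
      omega
    · exfalso
      simp only [Option.elim] at h'
      have := congrArg Fin.val h'
      simp at this
      omega
    · simp only [Option.elim] at h'
      rw [Fin.castSucc_injective _ h']
  have hFR : ∀ o, F o ∈ R := fun o => hgR _
  refine ⟨Sum.elim ![a, b, x, y, z] F, ?_, ?_, Sum.inl 0, Sum.inl 1, ?_, rfl, rfl⟩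
  · rintro (i | i) (j | j) hij
    · by_contra hne
      exact (h1 i j (fun h => hne (by rw [h]))).1 hij
    · simp only [Sum.elim_inl, Sum.elim_inr] at hij
      exact absurd (hFR j) (hij ▸ h2 i)
    · simp only [Sum.elim_inl, Sum.elim_inr] at hij
      exact absurd (hFR i) (hij.symm ▸ h2 j)
    · exact congrArg _ (hF hij)
  · rintro (i | i) (j | j) hij
    · exact (h1 i j hij).2
    · rcases j with _ | j <;> exact hij.elim
    · rcases i with _ | i <;> exact hij.elim
    · left
      apply hR (hFR i) (hFR j)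
      intro h
      have := hF h
      subst this
      exact rule.loopless.irrefl _ hij
  · show (0 : Fin 5) ≠ 1
    decide

lemma add_Y {G : SimpleGraph V} (R C : Finset V) (hR : G.IsClique (R : Set V))
    (hC : G.IsClique (C : Set V)) (hC5 : 5 ≤ C.card) {b x y : V} (K : Finset V) (hK : K.card = 4)
    (hKR : K ⊆ R) (hxR : x ∈ R) (hyR : y ∈ R) (hxy : x ≠ y) (hxK : x ∉ K) (hyK : y ∉ K)
    (hbR : b ∉ R) (hbx : G.Adj b x) (hbC : b ∉ C) (hxC : x ∉ C) (hyC : y ∉ C)
    (hKC : ∀ k ∈ K, k ∉ C) : (step rule G).Adj b y := by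
  obtain ⟨c, hc, hcC⟩ := exists_enum C 5 hC5
  obtain ⟨k, hk, hkK⟩ := exists_enum K 4 hK.ge
  rw [step_adj]
  have hby : b ≠ y := by rintro rfl; exact hbR hyR
  refine Or.inr ⟨hby, ?_⟩
  let g : Fin 6 → V := Fin.cons x (Fin.cons y k)
  have hgR : ∀ i, g i ∈ R := by
    intro i
    refine Fin.cases hxR (fun i => ?_) i
    exact Fin.cases hyR (fun i => hKR (hkK i)) i
  have hgC : ∀ i, g i ∉ C := by
    intro i
    refine Fin.cases hxC (fun i => ?_) i
    exact Fin.cases hyC (fun i => hKC _ (hkK i)) i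
  have hg : Function.Injective g := by
    rw [Fin.cons_injective_iff]
    constructor
    · rintro ⟨i, hi⟩
      revert hi
      refine Fin.cases (fun h => hxy h.symm) (fun i h => ?_) i
      apply hxK
      have h' : k i = x := h
      rw [← h']
      exact hkK i
    · rw [Fin.cons_injective_iff]
      constructor
      · rintro ⟨i, hi⟩
        apply hyK
        rw [← hi]
        exact hkK i
      · exact hk
  let F : Option (Fin 6) → V := fun o => o.elim b g
  have hF : Function.Injective F := by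
    intro o o' h
    rcases o with _ | i <;> rcases o' with _ | j
    · rfl
    · exact absurd (hgR j) (by rw [← show b = g j from h]; exact hbR)
    · exact absurd (hgR i) (by rw [show g i = b from h]; exact hbR)
    · rw [hg h]
  have hFC : ∀ o, F o ∉ C := by
    rintro (_ | i)
    · exact hbC
    · exact hgC i
  refine ⟨Sum.elim c F, ?_, ?_, Sum.inr none, Sum.inr (some 1), ?_, rfl, rfl⟩
  · rintro (i | i) (j | j) hij
    · exact congrArg _ (hc hij)
    · simp only [Sum.elim_inl, Sum.elim_inr] at hij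
      exact absurd (hcC i) (hij ▸ hFC j)
    · simp only [Sum.elim_inl, Sum.elim_inr] at hij
      exact absurd (hcC j) (hij ▸ hFC i)
    · exact congrArg _ (hF hij)
  · rintro (i | i) (j | j) hij
    · left
      exact hC (hcC i) (hcC j) (fun h => hij (hc h))
    · rcases j with _ | j <;> exact hij.elim
    · rcases i with _ | i <;> exact hij.elim
    · rcases i with _ | i <;> rcases j with _ | j
      · exact hij.elim
      · rcases hij with rfl | rfl
        · left; exact hbx
        · right; rfl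
      · rcases hij with rfl | rfl
        · left; exact hbx.symm
        · right; exact Sym2.eq_swap
      · left
        exact hR (hgR i) (hgR j) (fun h => hij (hg h))
  · show (1 : Fin 6) = 0 ∨ (1 : Fin 6) = 1
    exact Or.inr rfl

/-- No edge between a set and its complement is ever added if there was none. -/
lemma no_cross {G : SimpleGraph V} (A : Set V) (h : ∀ u ∈ A, ∀ v ∉ A, ¬ G.Adj u v) :
    ∀ u ∈ A, ∀ v ∉ A, ¬ (step rule G).Adj u v := by
  intro u hu v hv huv
  rw [step_adj] at huv
  rcases huv with huv | ⟨hne, f, hf, hadj, p, q, hpq, rfl, rfl⟩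
  · exact h u hu v hv huv
  · obtain ⟨r, hpr, hqr⟩ := rule_triangle p q hpq
    by_cases hr : f r ∈ A
    · rcases hadj r q hqr.symm with h1 | h1
      · exact h _ hr _ hv h1
      · rw [Sym2.eq_iff] at h1
        rcases h1 with ⟨h1, -⟩ | ⟨h1, h2⟩
        · exact hpr.ne (hf h1).symm
        · exact hqr.ne (hf h1).symm
    · rcases hadj p r hpr with h1 | h1
      · exact h _ hu _ hr h1
      · rw [Sym2.eq_iff] at h1
        rcases h1 with ⟨-, h1⟩ | ⟨h1, h2⟩
        · exact hqr.ne (hf h1).symm
        · exact hpr.ne (hf h2).symm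

end Pool.Agent.Q105.Boot
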