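import Mathlib
import Pool.Agent.Q105.Boot.Upper

set_option autoImplicit false

/-!
# Slow chains of `K_5`s
-/

open SimpleGraph

namespace Pool.Agent.Q105.Boot

variable {V : Type}

/-- A sequence of graphs in which exactly one edge is completed to a `K_5` in every round. -/
structure Slow (T : ℕ) (G : ℕ → SimpleGraph V) (e : ℕ → V × V) : Prop where
  ne : ∀ t ≤ T, (e t).1 ≠ (e t).2
  notAdj : ∀ t ≤ T, ¬ (G t).Adj (e t).1 (e t).2
  succ : ∀ t ≤ T, ∀ a b, (G (t + 1)).Adj a b ↔ (G t).Adj a b ∨ s(a, b) = s((e t).1, (e t).2)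
  completes : ∀ t ≤ T, ∃ x y z, Cfg (G t) (e t).1 (e t).2 x y z
  only : ∀ t ≤ T + 1, ∀ a b x y z, Cfg (G t) a b x y z →
    (G t).Adj a b ∨ (t ≤ T ∧ s(a, b) = s((e t).1, (e t).2))
  free : ∀ s : Finset V, (G (T + 1)).IsClique (s : Set V) → s.card ≠ 6

lemma Slow.le_succ {T : ℕ} {G : ℕ → SimpleGraph V} {e : ℕ → V × V} (h : Slow T G e) {t : ℕ}
    (ht : t ≤ T) : G t ≤ G (t + 1) := fun a b hab => (h.succ t ht a b).2 (Or.inl hab)

lemma Slow.mono {T : ℕ} {G : ℕ → SimpleGraph V} {e : ℕ → V × V} (h : Slow T G e) {s t : ℕ}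
    (hst : s ≤ t) (ht : t ≤ T + 1) : G s ≤ G t := by
  induction t, hst using Nat.le_induction with
  | base => exact le_rfl
  | succ t hst ih => exact (ih (by omega)).trans (h.le_succ (by omega))

/-- Distance at least three. -/
def Far (U : SimpleGraph V) (c d : V) : Prop :=
  c ≠ d ∧ ¬ U.Adj c d ∧ ∀ w, U.Adj w c → U.Adj w d → False

lemma Far.symm {U : SimpleGraph V} {c d : V} (h : Far U c d) : Far U d c :=
  ⟨h.1.symm, fun h' => h.2.1 h'.symm, fun w h1 h2 => h.2.2 w h2 h1⟩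

section extend

variable [DecidableEq V] {U : SimpleGraph V} {p q r1 r2 r3 : V}

/-- The five vertices of the new `K_5`. -/
def quint (p q r1 r2 r3 : V) : Finset V := {p, q, r1, r2, r3}

lemma mem_quint {v : V} : v ∈ quint p q r1 r2 r3 ↔ v = p ∨ v = q ∨ v = r1 ∨ v = r2 ∨ v = r3 := by
  simp [quint]

lemma card_quint : (quint p q r1 r2 r3).card ≤ 5 := Finset.card_le_five

/-- All the distance requirements. -/
def AllFar (U : SimpleGraph V) (p q r1 r2 r3 : V) : Prop :=
  Far U p r1 ∧ Far U p r2 ∧ Far U p r3 ∧ Far U q r1 ∧ Far U q r2 ∧ Far U q r3 ∧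
    Far U r1 r2 ∧ Far U r1 r3 ∧ Far U r2 r3

lemma far_of_mem (h : AllFar U p q r1 r2 r3) {c d : V} (hc : c ∈ quint p q r1 r2 r3)
    (hd : d ∈ quint p q r1 r2 r3) (hcd : c ≠ d) (hpq : s(c, d) ≠ s(p, q)) : Far U c d := by
  obtain ⟨h1, h2, h3, h4, h5, h6, h7, h8, h9⟩ := h
  rw [mem_quint] at hc hd
  rcases hc with rfl | rfl | rfl | rfl | rfl <;> rcases hd with rfl | rfl | rfl | rfl | rfl <;>
    first
      | exact absurd rfl hcd
      | exact absurd rfl hpq
      | exact absurd Sym2.eq_swap hpq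
      | assumption
      | (apply Far.symm; assumption)

/-- A graph obtained from `A ≤ U` by adding pairs of the new five vertices other than `pq`. -/
def Ext (A A' : SimpleGraph V) (p q r1 r2 r3 : V) : Prop :=
  ∀ a b, A'.Adj a b → A.Adj a b ∨ (a ∈ quint p q r1 r2 r3 ∧ b ∈ quint p q r1 r2 r3 ∧ a ≠ b ∧
    s(a, b) ≠ s(p, q))

lemma Ext.old {A A' : SimpleGraph V} (h : Ext A A' p q r1 r2 r3) {w c : V}
    (hw : w ∉ quint p q r1 r2 r3) (hwc : A'.Adj w c) : A.Adj w c := by
  rcases h w c hwc with h1 | h1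
  · exact h1
  · exact absurd h1.1 hw

lemma Ext.old2 {A A' : SimpleGraph V} (h : Ext A A' p q r1 r2 r3) (hA : A ≤ U)
    (hfar : AllFar U p q r1 r2 r3) {w c d : V}
    (hw : w ∉ quint p q r1 r2 r3) (hwc : A'.Adj w c) (hwd : A'.Adj w d) (hcd : A'.Adj c d) :
    A.Adj c d := by
  rcases h c d hcd with h1 | ⟨h1, h2, h3, h4⟩
  · exact h1
  · exact ((far_of_mem hfar h1 h2 h3 h4).2.2 w (hA (h.old hw hwc)) (hA (h.old hw hwd))).elim

/-- A configuration with a vertex outside the new five vertices is old. -/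
lemma Ext.cfg_old {A A' : SimpleGraph V} (h : Ext A A' p q r1 r2 r3) (hA : A ≤ U)
    (hfar : AllFar U p q r1 r2 r3) {a b x y z : V} (hc : Cfg A' a b x y z)
    (hout : ¬ (a ∈ quint p q r1 r2 r3 ∧ b ∈ quint p q r1 r2 r3 ∧ x ∈ quint p q r1 r2 r3 ∧
      y ∈ quint p q r1 r2 r3 ∧ z ∈ quint p q r1 r2 r3)) : Cfg A a b x y z := by
  obtain ⟨hab, hxy, hyz, hxz, hax, hay, haz, hbx, hby, hbz⟩ := hc
  by_cases hx : x ∈ quint p q r1 r2 r3
  swap
  · exact ⟨hab, h.old hx hxy, h.old2 hA hfar hx hxy hxz hyz, h.old hx hxz,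
      (h.old hx hax.symm).symm, h.old2 hA hfar hx hax.symm hxy hay,
      h.old2 hA hfar hx hax.symm hxz haz, (h.old hx hbx.symm).symm,
      h.old2 hA hfar hx hbx.symm hxy hby, h.old2 hA hfar hx hbx.symm hxz hbz⟩
  by_cases hy : y ∈ quint p q r1 r2 r3
  swap
  · exact ⟨hab, (h.old hy hxy.symm).symm, h.old hy hyz, h.old2 hA hfar hy hxy.symm hyz hxz,
      h.old2 hA hfar hy hay.symm hxy.symm hax, (h.old hy hay.symm).symm,
      h.old2 hA hfar hy hay.symm hyz haz, h.old2 hA hfar hy hby.symm hxy.symm hbx,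
      (h.old hy hby.symm).symm, h.old2 hA hfar hy hby.symm hyz hbz⟩
  by_cases hz : z ∈ quint p q r1 r2 r3
  swap
  · exact ⟨hab, h.old2 hA hfar hz hxz.symm hyz.symm hxy, (h.old hz hyz.symm).symm,
      (h.old hz hxz.symm).symm, h.old2 hA hfar hz haz.symm hxz.symm hax,
      h.old2 hA hfar hz haz.symm hyz.symm hay, (h.old hz haz.symm).symm,
      h.old2 hA hfar hz hbz.symm hxz.symm hbx, h.old2 hA hfar hz hbz.symm hyz.symm hby,
      (h.old hz hbz.symm).symm⟩
  -- an outside vertex adjacent to `x`, `y`, `z` is impossible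
  have key : ∀ w ∉ quint p q r1 r2 r3, A'.Adj w x → A'.Adj w y → A'.Adj w z → False := by
    intro w hw h1 h2 h3
    have e1 : s(x, y) = s(p, q) := by
      by_contra hne
      exact (far_of_mem hfar hx hy hxy.ne hne).2.2 w (hA (h.old hw h1)) (hA (h.old hw h2))
    have e2 : s(x, z) = s(p, q) := by
      by_contra hne
      exact (far_of_mem hfar hx hz hxz.ne hne).2.2 w (hA (h.old hw h1)) (hA (h.old hw h3))
    have e3 := e1.trans e2.symm
    rw [Sym2.congr_right] at e3
    exact hyz.ne e3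
  exfalso
  apply hout
  refine ⟨?_, ?_, hx, hy, hz⟩
  · by_contra ha
    exact key a ha hax hay haz
  · by_contra hb
    exact key b hb hbx hby hbz

/-- In a configuration that fills the new five vertices, every non-adjacent pair is `ab`. -/
lemma pair_of_cfg {A : SimpleGraph V} {a b x y z : V} (hc : Cfg A a b x y z)
    (hin : a ∈ quint p q r1 r2 r3 ∧ b ∈ quint p q r1 r2 r3 ∧ x ∈ quint p q r1 r2 r3 ∧
      y ∈ quint p q r1 r2 r3 ∧ z ∈ quint p q r1 r2 r3) {c d : V} (hcQ : c ∈ quint p q r1 r2 r3)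
    (hdQ : d ∈ quint p q r1 r2 r3) (hcd : c ≠ d) (hn : ¬ A.Adj c d) : s(c, d) = s(a, b) := by
  obtain ⟨hab, hxy, hyz, hxz, hax, hay, haz, hbx, hby, hbz⟩ := hc
  obtain ⟨ha, hb, hx, hy, hz⟩ := hin
  have hsub : quint a b x y z ⊆ quint p q r1 r2 r3 := by
    intro v hv
    rw [mem_quint] at hv
    rcases hv with rfl | rfl | rfl | rfl | rfl <;> assumption
  have hcard : (quint a b x y z).card = 5 := by
    unfold quint
    rw [Finset.card_insert_of_notMem, Finset.card_insert_of_notMem, Finset.card_insert_of_notMem,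
      Finset.card_insert_of_notMem, Finset.card_singleton]
    · simp [hyz.ne]
    · simp [hxy.ne, hxz.ne]
    · simp [hbx.ne, hby.ne, hbz.ne]
    · simp [hab, hax.ne, hay.ne, haz.ne]
  have heq : quint a b x y z = quint p q r1 r2 r3 :=
    Finset.eq_of_subset_of_card_le hsub (by rw [hcard]; exact card_quint)
  rw [← heq, mem_quint] at hcQ hdQ
  rcases hcQ with rfl | rfl | rfl | rfl | rfl <;> rcases hdQ with rfl | rfl | rfl | rfl | rfl <;>
    first
      | exact absurd rfl hcd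
      | rfl
      | exact Sym2.eq_swap
      | (exfalso; apply hn; assumption)
      | (exfalso; apply hn; apply SimpleGraph.Adj.symm; assumption)

/-- The new start edges. -/
def newEdges (p q r1 r2 r3 : V) : SimpleGraph V where
  Adj c d := c ≠ d ∧ c ∈ quint p q r1 r2 r3 ∧ d ∈ quint p q r1 r2 r3 ∧ s(c, d) ≠ s(p, q) ∧
    s(c, d) ≠ s(r2, r3)
  symm := ⟨fun c d h => ⟨h.1.symm, h.2.2.1, h.2.1, by rw [Sym2.eq_swap]; exact h.2.2.2.1, by
    rw [Sym2.eq_swap]; exact h.2.2.2.2⟩⟩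
  loopless := ⟨fun c h => h.1 rfl⟩

/-- The extended sequence of graphs. -/
def extG (T : ℕ) (G : ℕ → SimpleGraph V) (p q r1 r2 r3 : V) (t : ℕ) : SimpleGraph V :=
  if t ≤ T + 1 then G t ⊔ newEdges p q r1 r2 r3
  else (G (T + 1) ⊔ newEdges p q r1 r2 r3) ⊔ edge r2 r3

/-- The extended sequence of edges. -/
def extE (T : ℕ) (e : ℕ → V × V) (r2 r3 : V) (t : ℕ) : V × V := if t ≤ T then e t else (r2, r3)

lemma Slow.extend {T : ℕ} {G : ℕ → SimpleGraph V} {e : ℕ → V × V} (h : Slow T G e)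
    (hfar : AllFar (G (T + 1)) (e T).1 (e T).2 r1 r2 r3) :
    Slow (T + 1) (extG T G (e T).1 (e T).2 r1 r2 r3) (extE T e r2 r3) := by
  set p := (e T).1 with hp
  set q := (e T).2 with hq
  have hpq : p ≠ q := h.ne T le_rfl
  have hGt : ∀ t ≤ T + 1, extG T G p q r1 r2 r3 t = G t ⊔ newEdges p q r1 r2 r3 := by
    intro t ht
    rw [extG, if_pos ht]
  have hGlast : ∀ a b, (extG T G p q r1 r2 r3 (T + 1 + 1)).Adj a b ↔
      (G (T + 1)).Adj a b ∨ (newEdges p q r1 r2 r3).Adj a b ∨ s(a, b) = s(r2, r3) := by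
    intro a b
    rw [extG, if_neg (by omega), sup_adj, sup_adj, edge_adj]
    constructor
    · rintro ((h1 | h1) | ⟨⟨rfl, rfl⟩ | ⟨rfl, rfl⟩, -⟩)
      · exact Or.inl h1
      · exact Or.inr (Or.inl h1)
      · exact Or.inr (Or.inr rfl)
      · exact Or.inr (Or.inr Sym2.eq_swap)
    · rintro (h1 | h1 | h1)
      · exact Or.inl (Or.inl h1)
      · exact Or.inl (Or.inr h1)
      · right
        rw [Sym2.eq_iff] at h1
        refine ⟨h1, ?_⟩
        rcases h1 with ⟨rfl, rfl⟩ | ⟨rfl, rfl⟩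
        · exact hfar.2.2.2.2.2.2.2.2.1
        · exact hfar.2.2.2.2.2.2.2.2.1.symm
  have hr2 : r2 ∈ quint p q r1 r2 r3 := mem_quint.2 (by tauto)
  have hr3 : r3 ∈ quint p q r1 r2 r3 := mem_quint.2 (by tauto)
  have hpQ : p ∈ quint p q r1 r2 r3 := mem_quint.2 (by tauto)
  have hqQ : q ∈ quint p q r1 r2 r3 := mem_quint.2 (by tauto)
  have hr23 : Far (G (T + 1)) r2 r3 := hfar.2.2.2.2.2.2.2.2
  have hr23pq : s(r2, r3) ≠ s(p, q) := by
    intro h'
    rw [Sym2.eq_iff] at h'
    rcases h' with ⟨h1, -⟩ | ⟨h1, -⟩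
    · exact hfar.2.1.1 h1.symm
    · exact hfar.2.2.2.2.1.1 h1.symm
  have hext : ∀ t ≤ T + 1, Ext (G t) (extG T G p q r1 r2 r3 t) p q r1 r2 r3 := by
    intro t ht a b hab
    rw [hGt t ht, sup_adj] at hab
    rcases hab with hab | hab
    · exact Or.inl hab
    · exact Or.inr ⟨hab.2.1, hab.2.2.1, hab.1, hab.2.2.2.1⟩
  have hextlast : Ext (G (T + 1)) (extG T G p q r1 r2 r3 (T + 1 + 1)) p q r1 r2 r3 := by
    intro a b hab
    rw [hGlast] at hab
    rcases hab with hab | hab | hab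
    · exact Or.inl hab
    · exact Or.inr ⟨hab.2.1, hab.2.2.1, hab.1, hab.2.2.2.1⟩
    · right
      rw [hab]
      rw [Sym2.eq_iff] at hab
      rcases hab with ⟨rfl, rfl⟩ | ⟨rfl, rfl⟩
      · exact ⟨hr2, hr3, hr23.1, hr23pq⟩
      · exact ⟨hr3, hr2, hr23.1.symm, hr23pq⟩
  have hnpq : ∀ t ≤ T, ¬ (extG T G p q r1 r2 r3 t).Adj p q := by
    intro t ht hadj
    rw [hGt t (by omega), sup_adj] at hadj
    rcases hadj with hadj | hadj
    · exact h.notAdj T le_rfl (h.mono ht (by omega) hadj)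
    · exact hadj.2.2.2.1 rfl
  have hnr : ∀ t ≤ T + 1, ¬ (extG T G p q r1 r2 r3 t).Adj r2 r3 := by
    intro t ht hadj
    rw [hGt t ht, sup_adj] at hadj
    rcases hadj with hadj | hadj
    · exact hr23.2.1 (h.mono ht le_rfl hadj)
    · exact hadj.2.2.2.2 rfl
  constructor
  · -- ne
    intro t ht
    by_cases ht' : t ≤ T
    · rw [extE, if_pos ht']; exact h.ne t ht'
    · rw [extE, if_neg ht']; exact hr23.1
  · -- notAdj
    intro t ht
    by_cases ht' : t ≤ T
    · rw [extE, if_pos ht', hGt t ht, sup_adj]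
      rintro (h1 | h1)
      · exact h.notAdj t ht' h1
      · have hUadj : (G (T + 1)).Adj (e t).1 (e t).2 :=
          h.mono (by omega) le_rfl ((h.succ t ht' _ _).2 (Or.inr rfl))
        exact (far_of_mem hfar h1.2.1 h1.2.2.1 h1.1 h1.2.2.2.1).2.1 hUadj
    · rw [extE, if_neg ht']
      exact hnr t ht
  · -- succ
    intro t ht a b
    by_cases ht' : t ≤ T
    · rw [extE, if_pos ht', hGt t ht, hGt (t + 1) (by omega), sup_adj, sup_adj, h.succ t ht']
      tauto
    · have : t = T + 1 := by omega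
      subst this
      rw [hGlast, hGt (T + 1) le_rfl, sup_adj, extE, if_neg ht']
      tauto
  · -- completes
    intro t ht
    by_cases ht' : t ≤ T
    · rw [extE, if_pos ht', hGt t ht]
      obtain ⟨x, y, z, h0, h1, h2, h3, h4, h5, h6, h7, h8, h9⟩ := h.completes t ht'
      exact ⟨x, y, z, h0, Or.inl h1, Or.inl h2, Or.inl h3, Or.inl h4, Or.inl h5, Or.inl h6,
        Or.inl h7, Or.inl h8, Or.inl h9⟩
    · have : t = T + 1 := by omega
      subst this
      rw [extE, if_neg ht', hGt (T + 1) le_rfl]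
      have hr1 : r1 ∈ quint p q r1 r2 r3 := mem_quint.2 (by tauto)
      have hUpq : (G (T + 1)).Adj p q := (h.succ T le_rfl _ _).2 (Or.inr rfl)
      have hN : ∀ c d, c ∈ quint p q r1 r2 r3 → d ∈ quint p q r1 r2 r3 → c ≠ d →
          s(c, d) ≠ s(r2, r3) → (G (T + 1) ⊔ newEdges p q r1 r2 r3).Adj c d := by
        intro c d hc hd hcd hne
        by_cases hcdpq : s(c, d) = s(p, q)
        · left
          rw [Sym2.eq_iff] at hcdpq
          rcases hcdpq with ⟨rfl, rfl⟩ | ⟨rfl, rfl⟩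
          · exact hUpq
          · exact hUpq.symm
        · exact Or.inr ⟨hcd, hc, hd, hcdpq, hne⟩
      obtain ⟨f1, f2, f3, f4, f5, f6, f7, f8, f9⟩ := hfar
      have e1 : p ≠ r1 := f1.1
      have e2 : p ≠ r2 := f2.1
      have e3 : p ≠ r3 := f3.1
      have e4 : q ≠ r1 := f4.1
      have e5 : q ≠ r2 := f5.1
      have e6 : q ≠ r3 := f6.1
      have e7 : r1 ≠ r2 := f7.1
      have e8 : r1 ≠ r3 := f8.1
      have e9 : r2 ≠ r3 := f9.1
      refine ⟨p, q, r1, e9, ?_, ?_, ?_, ?_, ?_, ?_, ?_, ?_, ?_⟩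
      · exact hN p q hpQ hqQ hpq (by rw [Ne, Sym2.eq_iff]; tauto)
      · exact hN q r1 hqQ hr1 e4 (by rw [Ne, Sym2.eq_iff]; tauto)
      · exact hN p r1 hpQ hr1 e1 (by rw [Ne, Sym2.eq_iff]; tauto)
      · exact hN r2 p hr2 hpQ e2.symm (by rw [Ne, Sym2.eq_iff]; tauto)
      · exact hN r2 q hr2 hqQ e5.symm (by rw [Ne, Sym2.eq_iff]; tauto)
      · exact hN r2 r1 hr2 hr1 e7.symm (by rw [Ne, Sym2.eq_iff]; tauto)
      · exact hN r3 p hr3 hpQ e3.symm (by rw [Ne, Sym2.eq_iff]; tauto)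
      · exact hN r3 q hr3 hqQ e6.symm (by rw [Ne, Sym2.eq_iff]; tauto)
      · exact hN r3 r1 hr3 hr1 e8.symm (by rw [Ne, Sym2.eq_iff]; tauto)
  · -- only
    intro t ht a b x y z hc
    by_cases hin : a ∈ quint p q r1 r2 r3 ∧ b ∈ quint p q r1 r2 r3 ∧ x ∈ quint p q r1 r2 r3 ∧
      y ∈ quint p q r1 r2 r3 ∧ z ∈ quint p q r1 r2 r3
    · by_cases ht1 : t ≤ T
      · exfalso
        have e1 := pair_of_cfg hc hin hpQ hqQ hpq (hnpq t ht1)
        have e2 := pair_of_cfg hc hin hr2 hr3 hr23.1 (hnr t (by omega))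
        exact hr23pq (e2.trans e1.symm)
      · by_cases ht2 : t ≤ T + 1
        · have : t = T + 1 := by omega
          subst this
          right
          refine ⟨le_rfl, ?_⟩
          rw [extE, if_neg (by omega)]
          exact (pair_of_cfg hc hin hr2 hr3 hr23.1 (hnr (T + 1) le_rfl)).symm
        · have : t = T + 1 + 1 := by omega
          subst this
          left
          rw [hGlast]
          by_cases h1 : s(a, b) = s(r2, r3)
          · exact Or.inr (Or.inr h1)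
          · by_cases h2 : s(a, b) = s(p, q)
            · left
              exact (h.succ T le_rfl _ _).2 (Or.inr h2)
            · exact Or.inr (Or.inl ⟨hc.1, hin.1, hin.2.1, h2, h1⟩)
    · by_cases ht2 : t ≤ T + 1
      · have hold := (hext t ht2).cfg_old (h.mono ht2 le_rfl) hfar hc hin
        rcases h.only t ht2 a b x y z hold with h1 | ⟨h1, h2⟩
        · left
          rw [hGt t ht2]
          exact Or.inl h1
        · right
          refine ⟨by omega, ?_⟩
          rw [extE, if_pos h1]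
          exact h2
      · have : t = T + 1 + 1 := by omega
        subst this
        have hold := hextlast.cfg_old le_rfl hfar hc hin
        rcases h.only (T + 1) le_rfl a b x y z hold with h1 | ⟨h1, -⟩
        · left
          rw [hGlast]
          exact Or.inl h1
        · omega
  · -- free
    intro s hs hs6
    obtain ⟨w, hw, hwQ⟩ : ∃ w ∈ s, w ∉ quint p q r1 r2 r3 := by
      by_contra hcon
      push Not at hcon
      have h1 := Finset.card_le_card (show s ⊆ quint p q r1 r2 r3 from hcon)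
      have h2 := card_quint (p := p) (q := q) (r1 := r1) (r2 := r2) (r3 := r3)
      omega
    apply h.free s _ hs6
    intro c hc d hd hcd
    have hadj := hs hc hd hcd
    by_cases hcw : w = c
    · subst hcw; exact hextlast.old hwQ hadj
    by_cases hdw : w = d
    · subst hdw; exact (hextlast.old hwQ hadj.symm).symm
    · exact hextlast.old2 le_rfl hfar hwQ (hs hw hc hcw) (hs hw hd hdw) hadj

end extend

end Pool.Agent.Q105.Boot
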