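import Mathlib
import Pool.Agent.Q105.Boot.Chain

set_option autoImplicit false

/-!
# Long slow chains on few vertices
-/

open SimpleGraph

namespace Pool.Agent.Q105.Boot

variable {V : Type} [Fintype V] [DecidableEq V]

/-- The degree. -/
noncomputable def dg (U : SimpleGraph V) (v : V) : ℕ := (U.neighborSet v).ncard

omit [DecidableEq V] in
/-- There are at most `1 + D + D ^ 2` vertices that are not far from a given vertex. -/
lemma card_near (U : SimpleGraph V) (D : ℕ) (hD : ∀ v, dg U v ≤ D) (c : V) :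
    {v | ¬ Far U c v}.ncard ≤ 1 + D + D * D := by
  classical
  have hsub : {v | ¬ Far U c v} ⊆
      ({c} ∪ U.neighborSet c) ∪ ⋃ w ∈ (U.neighborSet c).toFinset, U.neighborSet w := by
    intro v hv
    rw [Set.mem_ofPred_eq, Far] at hv
    by_contra hcon
    apply hv
    rw [Set.mem_union, Set.mem_union, Set.mem_singleton_iff] at hcon
    push Not at hcon
    refine ⟨Ne.symm hcon.1.1, hcon.1.2, fun w h1 h2 => hcon.2 ?_⟩
    rw [Set.mem_iUnion₂]
    exact ⟨w, by simpa using h1.symm, h2⟩
  refine (Set.ncard_le_ncard hsub (Set.toFinite _)).trans ?_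
  refine (Set.ncard_union_le _ _).trans ?_
  have h1 : ({c} ∪ U.neighborSet c : Set V).ncard ≤ 1 + D := by
    refine (Set.ncard_union_le _ _).trans ?_
    rw [Set.ncard_singleton]
    have := hD c
    unfold dg at this
    omega
  have h2 : (⋃ w ∈ (U.neighborSet c).toFinset, U.neighborSet w : Set V).ncard ≤ D * D := by
    refine (Finset.set_ncard_biUnion_le _ _).trans ?_
    refine (Finset.sum_le_card_nsmul _ _ D (fun w _ => hD w)).trans ?_
    rw [smul_eq_mul]
    apply Nat.mul_le_mul_right
    rw [← Set.ncard_eq_toFinset_card']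
    exact hD c
  omega

omit [DecidableEq V] in
/-- Choosing a vertex of small degree far from at most four given vertices. -/
lemma exists_far (U : SimpleGraph V) (D d0 h : ℕ) (hD : ∀ v, dg U v ≤ D)
    (hhigh : {v | d0 < dg U v}.ncard ≤ h) (hN : h + 4 * (1 + D + D * D) < Fintype.card V)
    (c1 c2 c3 c4 : V) : ∃ r, dg U r ≤ d0 ∧ Far U c1 r ∧ Far U c2 r ∧ Far U c3 r ∧ Far U c4 r := by
  by_contra hcon
  push Not at hcon
  have hsub : (Set.univ : Set V) ⊆ {v | d0 < dg U v} ∪ (({v | ¬ Far U c1 v} ∪ {v | ¬ Far U c2 v}) ∪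
      ({v | ¬ Far U c3 v} ∪ {v | ¬ Far U c4 v})) := by
    intro r _
    by_contra hr
    simp only [Set.mem_union, Set.mem_ofPred_eq, not_or, not_not, not_lt] at hr
    obtain ⟨h0, ⟨h1, h2⟩, h3, h4⟩ := hr
    exact hcon r h0 h1 h2 h3 h4
  have h1 := Set.ncard_le_ncard hsub (Set.toFinite _)
  rw [Set.ncard_univ, Nat.card_eq_fintype_card] at h1
  have h2 := Set.ncard_union_le {v | d0 < dg U v} (({v | ¬ Far U c1 v} ∪ {v | ¬ Far U c2 v}) ∪
      ({v | ¬ Far U c3 v} ∪ {v | ¬ Far U c4 v}))
  have h3 := Set.ncard_union_le ({v | ¬ Far U c1 v} ∪ {v | ¬ Far U c2 v})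
      ({v | ¬ Far U c3 v} ∪ {v | ¬ Far U c4 v})
  have h4 := Set.ncard_union_le {v | ¬ Far U c1 v} {v | ¬ Far U c2 v}
  have h5 := Set.ncard_union_le {v | ¬ Far U c3 v} {v | ¬ Far U c4 v}
  have e1 := card_near U D hD c1
  have e2 := card_near U D hD c2
  have e3 := card_near U D hD c3
  have e4 := card_near U D hD c4
  omega

/-- Degrees after the extension. -/
lemma dg_extend {T : ℕ} {G : ℕ → SimpleGraph V} {p q r1 r2 r3 : V}
    (hfar : AllFar (G (T + 1)) p q r1 r2 r3) (v : V) :
    dg (extG T G p q r1 r2 r3 (T + 1 + 1)) v ≤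
      dg (G (T + 1)) v + (if v ∈ quint p q r1 r2 r3 then 4 else 0) := by
  have hnb : ∀ w, (extG T G p q r1 r2 r3 (T + 1 + 1)).Adj v w → (G (T + 1)).Adj v w ∨
      (v ∈ quint p q r1 r2 r3 ∧ w ∈ (quint p q r1 r2 r3).erase v) := by
    intro w hvw
    rw [extG, if_neg (by omega), sup_adj, sup_adj, edge_adj] at hvw
    rcases hvw with (h1 | h1) | ⟨h1, h2⟩
    · exact Or.inl h1
    · exact Or.inr ⟨h1.2.1, Finset.mem_erase.2 ⟨h1.1.symm, h1.2.2.1⟩⟩
    · right
      rw [Finset.mem_erase, mem_quint, mem_quint]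
      rcases h1 with ⟨rfl, rfl⟩ | ⟨rfl, rfl⟩
      · exact ⟨by tauto, h2.symm, by tauto⟩
      · exact ⟨by tauto, h2.symm, by tauto⟩
  unfold dg
  by_cases hv : v ∈ quint p q r1 r2 r3
  · rw [if_pos hv]
    have hsub : (extG T G p q r1 r2 r3 (T + 1 + 1)).neighborSet v ⊆
        (G (T + 1)).neighborSet v ∪ (((quint p q r1 r2 r3).erase v : Finset V) : Set V) := by
      intro w hw
      rcases hnb w hw with h1 | h1
      · exact Or.inl h1
      · exact Or.inr h1.2
    refine (Set.ncard_le_ncard hsub (Set.toFinite _)).trans ?_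
    refine (Set.ncard_union_le _ _).trans ?_
    rw [Set.ncard_coe_finset, Finset.card_erase_of_mem hv]
    have := card_quint (p := p) (q := q) (r1 := r1) (r2 := r2) (r3 := r3)
    omega
  · rw [if_neg hv]
    apply Set.ncard_le_ncard _ (Set.toFinite _)
    intro w hw
    rcases hnb w hw with h1 | h1
    · exact h1
    · exact absurd h1.1 hv

/-- Long slow chains exist as long as the total degree allows it. -/
lemma exists_slow (d0 h : ℕ) (hd0 : 4 ≤ d0)
    (hN : h + 4 * (1 + (d0 + 8) + (d0 + 8) * (d0 + 8)) < Fintype.card V) :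
    ∀ T, 20 * T ≤ (d0 + 1) * h → ∃ (G : ℕ → SimpleGraph V) (e : ℕ → V × V), Slow T G e ∧
      (∀ v, dg (G (T + 1)) v ≤ d0 + 8) ∧ dg (G (T + 1)) (e T).1 ≤ d0 + 4 ∧
      dg (G (T + 1)) (e T).2 ≤ d0 + 4 ∧ ∑ v, dg (G (T + 1)) v ≤ 20 * (T + 1) := by
  intro T
  induction T with
  | zero =>
    intro _
    -- start from the empty graph and five vertices
    have hc : 5 ≤ Fintype.card V := by nlinarith
    obtain ⟨g, hg, -⟩ := exists_enum (Finset.univ : Finset V) 5 (by rw [Finset.card_univ]; exact hc)
    have hinj : ∀ i j : Fin 5, i ≠ j → g i ≠ g j := fun i j hij h' => hij (hg h')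
    let Q := quint (g 0) (g 1) (g 2) (g 3) (g 4)
    let A0 : SimpleGraph V :=
      { Adj := fun c d => c ≠ d ∧ c ∈ Q ∧ d ∈ Q ∧ s(c, d) ≠ s(g 3, g 4)
        symm := ⟨fun c d h' => ⟨h'.1.symm, h'.2.2.1, h'.2.1, by rw [Sym2.eq_swap]; exact h'.2.2.2⟩⟩
        loopless := ⟨fun c h' => h'.1 rfl⟩ }
    let A1 : SimpleGraph V :=
      { Adj := fun c d => c ≠ d ∧ c ∈ Q ∧ d ∈ Q
        symm := ⟨fun c d h' => ⟨h'.1.symm, h'.2.2, h'.2.1⟩⟩
        loopless := ⟨fun c h' => h'.1 rfl⟩ }
    have h34 : g 3 ≠ g 4 := hinj 3 4 (by decide)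
    have hm : ∀ i : Fin 5, g i ∈ Q := by
      intro i
      rw [mem_quint]
      fin_cases i <;> simp
    refine ⟨fun t => if t = 0 then A0 else A1, fun _ => (g 3, g 4), ?_, ?_, ?_, ?_, ?_⟩
    · constructor
      · intro t _; exact h34
      · intro t ht
        obtain rfl : t = 0 := by omega
        rw [if_pos rfl]
        exact fun h' => h'.2.2.2 rfl
      · intro t ht a b
        obtain rfl : t = 0 := by omega
        rw [if_pos rfl, if_neg (by omega)]
        show (a ≠ b ∧ a ∈ Q ∧ b ∈ Q) ↔ (a ≠ b ∧ a ∈ Q ∧ b ∈ Q ∧ s(a, b) ≠ s(g 3, g 4)) ∨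
          s(a, b) = s(g 3, g 4)
        constructor
        · intro h'
          by_cases h1 : s(a, b) = s(g 3, g 4)
          · exact Or.inr h1
          · exact Or.inl ⟨h'.1, h'.2.1, h'.2.2, h1⟩
        · rintro (h' | h')
          · exact ⟨h'.1, h'.2.1, h'.2.2.1⟩
          · rw [Sym2.eq_iff] at h'
            rcases h' with ⟨rfl, rfl⟩ | ⟨rfl, rfl⟩
            · exact ⟨h34, hm 3, hm 4⟩
            · exact ⟨h34.symm, hm 4, hm 3⟩
      · intro t ht
        obtain rfl : t = 0 := by omega
        rw [if_pos rfl]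
        have hA : ∀ i j : Fin 5, i ≠ j → ¬ ((i = 3 ∧ j = 4) ∨ (i = 4 ∧ j = 3)) →
            A0.Adj (g i) (g j) := by
          intro i j hij hn
          refine ⟨hinj i j hij, hm i, hm j, fun h' => hn ?_⟩
          rw [Sym2.eq_iff] at h'
          rcases h' with ⟨h1, h2⟩ | ⟨h1, h2⟩
          · exact Or.inl ⟨hg h1, hg h2⟩
          · exact Or.inr ⟨hg h1, hg h2⟩
        exact ⟨g 0, g 1, g 2, h34, hA 0 1 (by decide) (by decide), hA 1 2 (by decide) (by decide),
          hA 0 2 (by decide) (by decide), hA 3 0 (by decide) (by decide),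
          hA 3 1 (by decide) (by decide), hA 3 2 (by decide) (by decide),
          hA 4 0 (by decide) (by decide), hA 4 1 (by decide) (by decide),
          hA 4 2 (by decide) (by decide)⟩
      · intro t ht a b x y z hc'
        by_cases ht0 : t = 0
        · subst ht0
          rw [if_pos rfl] at hc' ⊢
          right
          refine ⟨le_rfl, ?_⟩
          have hin : a ∈ Q ∧ b ∈ Q ∧ x ∈ Q ∧ y ∈ Q ∧ z ∈ Q := by
            obtain ⟨-, h1, h2, -, h4, -, -, h7, -⟩ := hc'
            exact ⟨h4.2.1, h7.2.1, h1.2.1, h1.2.2.1, h2.2.2.1⟩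
          exact (pair_of_cfg hc' hin (hm 3) (hm 4) h34 (fun h' => h'.2.2.2 rfl)).symm
        · rw [if_neg ht0] at hc' ⊢
          left
          obtain ⟨h0, -, -, -, h4, -, -, h7, -⟩ := hc'
          exact ⟨h0, h4.2.1, h7.2.1⟩
      · intro s hs hs6
        rw [if_neg (by omega)] at hs
        have hsub : s ⊆ Q := by
          intro v hv
          obtain ⟨w, hw, hvw⟩ : ∃ w ∈ s, w ≠ v := by
            apply Finset.exists_mem_ne
            omega
          exact (hs hv hw hvw.symm).2.1
        have h1 := Finset.card_le_card hsub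
        have h2 := card_quint (p := g 0) (q := g 1) (r1 := g 2) (r2 := g 3) (r3 := g 4)
        change (Q.card ≤ 5) at h2
        omega
    all_goals simp only [if_neg (show ¬ (0 + 1 = 0) by omega)]
    · intro v
      have : dg A1 v ≤ 5 := by
        have hsub : A1.neighborSet v ⊆ (Q : Set V) := fun w hw => hw.2.2
        refine (Set.ncard_le_ncard hsub (Set.toFinite _)).trans ?_
        rw [Set.ncard_coe_finset]
        exact card_quint
      omega
    · have : dg A1 (g 3) ≤ 5 := by
        have hsub : A1.neighborSet (g 3) ⊆ (Q : Set V) := fun w hw => hw.2.2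
        refine (Set.ncard_le_ncard hsub (Set.toFinite _)).trans ?_
        rw [Set.ncard_coe_finset]
        exact card_quint
      omega
    · have : dg A1 (g 4) ≤ 5 := by
        have hsub : A1.neighborSet (g 4) ⊆ (Q : Set V) := fun w hw => hw.2.2
        refine (Set.ncard_le_ncard hsub (Set.toFinite _)).trans ?_
        rw [Set.ncard_coe_finset]
        exact card_quint
      omega
    · have hdv : ∀ v, dg A1 v ≤ if v ∈ Q then 4 else 0 := by
        intro v
        by_cases hv : v ∈ Q
        · rw [if_pos hv]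
          have hsub : A1.neighborSet v ⊆ ((Q.erase v : Finset V) : Set V) := by
            intro w hw
            rw [Finset.mem_coe, Finset.mem_erase]
            exact ⟨hw.1.symm, hw.2.2⟩
          refine (Set.ncard_le_ncard hsub (Set.toFinite _)).trans ?_
          rw [Set.ncard_coe_finset, Finset.card_erase_of_mem hv]
          have h2 := card_quint (p := g 0) (q := g 1) (r1 := g 2) (r2 := g 3) (r3 := g 4)
          change (Q.card ≤ 5) at h2
          omega
        · rw [if_neg hv]
          have : A1.neighborSet v = ∅ := by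
            ext w
            constructor
            · intro hw; exact absurd hw.2.1 hv
            · intro hw; exact hw.elim
          rw [dg, this, Set.ncard_empty]
      refine (Finset.sum_le_sum (fun v _ => hdv v)).trans ?_
      rw [Finset.sum_ite_mem, Finset.univ_inter, Finset.sum_const, smul_eq_mul]
      have h2 := card_quint (p := g 0) (q := g 1) (r1 := g 2) (r2 := g 3) (r3 := g 4)
      change (Q.card ≤ 5) at h2
      omega
  | succ T ih =>
    intro hT
    obtain ⟨G, e, hs, hmax, h1, h2, hsum⟩ := ih (by omega)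
    set U := G (T + 1) with hU
    have hhigh : {v | d0 < dg U v}.ncard ≤ h := by
      by_contra hlt
      push Not at hlt
      have hfin : ∑ v ∈ (Finset.univ.filter fun v => d0 < dg U v), (d0 + 1) ≤ ∑ v, dg U v := by
        refine (Finset.sum_le_sum (g := fun v => dg U v) ?_).trans ?_
        · intro v hv
          exact (Finset.mem_filter.1 hv).2
        · exact Finset.sum_le_univ_sum_of_nonneg (fun v => Nat.zero_le _)
      rw [Finset.sum_const, smul_eq_mul] at hfin
      have hcard : {v | d0 < dg U v}.ncard = (Finset.univ.filter fun v => d0 < dg U v).card := by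
        rw [← Set.ncard_coe_finset]
        congr 1
        ext v
        simp
      rw [hcard] at hlt
      have : (h + 1) * (d0 + 1) ≤ 20 * (T + 1) :=
        (Nat.mul_le_mul_right _ hlt).trans (hfin.trans hsum)
      nlinarith
    set p := (e T).1 with hp
    set q := (e T).2 with hq
    obtain ⟨r1, hr1, f1, f2, -, -⟩ := exists_far U (d0 + 8) d0 h hmax hhigh hN p q q q
    obtain ⟨r2, hr2, f3, f4, f5, -⟩ := exists_far U (d0 + 8) d0 h hmax hhigh hN p q r1 r1
    obtain ⟨r3, hr3, f6, f7, f8, f9⟩ := exists_far U (d0 + 8) d0 h hmax hhigh hN p q r1 r2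
    have hfar : AllFar U p q r1 r2 r3 := ⟨f1, f3, f6, f2, f4, f7, f5, f8, f9⟩
    have hdg := dg_extend (T := T) (G := G) hfar
    refine ⟨_, _, hs.extend hfar, ?_, ?_, ?_, ?_⟩
    · intro v
      refine (hdg v).trans ?_
      by_cases hv : v ∈ quint p q r1 r2 r3
      · rw [if_pos hv]
        rw [mem_quint] at hv
        rcases hv with rfl | rfl | rfl | rfl | rfl
        · change dg U p + 4 ≤ _; omega
        · change dg U q + 4 ≤ _; omega
        · change dg U v + 4 ≤ _; omega
        · change dg U v + 4 ≤ _; omega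
        · change dg U v + 4 ≤ _; omega
      · rw [if_neg hv]
        exact hmax v
    · rw [extE, if_neg (by omega)]
      refine (hdg r2).trans ?_
      rw [if_pos (mem_quint.2 (by tauto))]
      change dg U r2 + 4 ≤ _
      omega
    · rw [extE, if_neg (by omega)]
      refine (hdg r3).trans ?_
      rw [if_pos (mem_quint.2 (by tauto))]
      change dg U r3 + 4 ≤ _
      omega
    · refine (Finset.sum_le_sum (fun v _ => hdg v)).trans ?_
      rw [Finset.sum_add_distrib, Finset.sum_ite_mem, Finset.univ_inter, Finset.sum_const,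
        smul_eq_mul]
      have h3 := card_quint (p := p) (q := q) (r1 := r1) (r2 := r2) (r3 := r3)
      change ∑ v, dg U v + _ ≤ _
      omega

end Pool.Agent.Q105.Boot
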