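import Mathlib
import Pool.Agent.Q105.Boot.Upper

set_option autoImplicit false

/-!
# Percolating graphs for the rule `K_5 ⊔ (K_6 + ear)` finish in linear time
-/

open SimpleGraph

namespace Pool.Agent.Q105.Boot

variable {V : Type} [Fintype V] (G : SimpleGraph V)

/-- The process of the rule graph. -/
noncomputable abbrev P (t : ℕ) : SimpleGraph V := process rule G t

/-- The pair `uv` is added in round `s + 1`. -/
def New (s : ℕ) (u v : V) : Prop := (P G (s + 1)).Adj u v ∧ ¬ (P G s).Adj u v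

/-- A clique `R` with at least seven vertices and a disjoint `K_5`. -/
def State (t : ℕ) (R C : Finset V) : Prop :=
  (P G t).IsClique (R : Set V) ∧ (P G t).IsClique (C : Set V) ∧ C.card = 5 ∧ Disjoint R C ∧
    7 ≤ R.card

variable {G}

lemma State.mono {s t : ℕ} (hst : s ≤ t) {R C : Finset V} (h : State G s R C) :
    State G t R C :=
  ⟨h.1.mono (process_mono rule G hst), h.2.1.mono (process_mono rule G hst), h.2.2.1, h.2.2.2.1,
    h.2.2.2.2⟩

lemma P_succ_adj {s : ℕ} {u v : V} (h : (step rule (P G s)).Adj u v) :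
    (P G (s + 1)).Adj u v := by
  rw [P, process_succ]; exact h

/-- A copy of the rule in `P G t`. -/
def CopyAt (G : SimpleGraph V) (t : ℕ) (f : Fin 5 ⊕ Option (Fin 6) → V) : Prop :=
  Function.Injective f ∧ ∀ p q, rule.Adj p q → (P G t).Adj (f p) (f q)

lemma New.copy {s : ℕ} {u v : V} (h : New G s u v) :
    ∃ f, CopyAt G (s + 1) f ∧ (∃ p q, rule.Adj p q ∧ f p = u ∧ f q = v) ∧
      ∀ p q, rule.Adj p q → (P G s).Adj (f p) (f q) ∨ s(f p, f q) = s(u, v) := by
  obtain ⟨h1, h2⟩ := h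
  have h3 := h1
  rw [P, process_succ, step_adj] at h1
  rcases h1 with h1 | ⟨hne, f, hf, hadj, hpq⟩
  · exact absurd h1 h2
  · refine ⟨f, ⟨hf, fun p q h => ?_⟩, hpq, hadj⟩
    rcases hadj p q h with h4 | h4
    · exact process_le_succ rule G s h4
    · rw [Sym2.eq_iff] at h4
      rcases h4 with ⟨h4, h5⟩ | ⟨h4, h5⟩
      · rw [h4, h5]; exact h3
      · rw [h4, h5]; exact h3.symm

/-- Every new edge has a copy that contains an edge added exactly one round before. -/
lemma New.link {s : ℕ} {u v : V} (h : New G (s + 1) u v) :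
    ∃ f, CopyAt G (s + 2) f ∧ (∃ p q, rule.Adj p q ∧ f p = u ∧ f q = v) ∧
      ∃ p q, rule.Adj p q ∧ New G s (f p) (f q) := by
  obtain ⟨f, hf, hpq, hadj⟩ := h.copy
  refine ⟨f, hf, hpq, ?_⟩
  by_contra hcon
  push Not at hcon
  apply h.2
  obtain ⟨p0, q0, hpq0, hu, hv⟩ := hpq
  apply P_succ_adj
  rw [step_adj]
  refine Or.inr ⟨fun huv => hpq0.ne (hf.1 (by rw [hu, hv, huv])), f, hf.1, fun p q hpq => ?_,
    p0, q0, hpq0, hu, hv⟩
  rcases hadj p q hpq with h1 | h1
  · left
    by_contra h2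
    exact hcon p q hpq ⟨h1, h2⟩
  · exact Or.inr h1

open Classical in
/-- The `K_5` part of a copy. -/
noncomputable def part5 (f : Fin 5 ⊕ Option (Fin 6) → V) : Finset V :=
  Finset.univ.image (fun i => f (Sum.inl i))

open Classical in
/-- The `K_6` part of a copy. -/
noncomputable def part6 (f : Fin 5 ⊕ Option (Fin 6) → V) : Finset V :=
  Finset.univ.image (fun i => f (Sum.inr (some i)))

omit [Fintype V] in
lemma mem_part5 {f : Fin 5 ⊕ Option (Fin 6) → V} {v : V} :
    v ∈ part5 f ↔ ∃ i, f (Sum.inl i) = v := by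
  simp [part5]

omit [Fintype V] in
lemma mem_part6 {f : Fin 5 ⊕ Option (Fin 6) → V} {v : V} :
    v ∈ part6 f ↔ ∃ i, f (Sum.inr (some i)) = v := by
  simp [part6]

lemma CopyAt.card5 {t : ℕ} {f : Fin 5 ⊕ Option (Fin 6) → V} (h : CopyAt G t f) :
    (part5 f).card = 5 := by
  classical
  rw [part5, Finset.card_image_of_injective _ (fun i j hij => Sum.inl.inj (h.1 hij))]
  simp

lemma CopyAt.card6 {t : ℕ} {f : Fin 5 ⊕ Option (Fin 6) → V} (h : CopyAt G t f) :
    (part6 f).card = 6 := by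
  classical
  rw [part6, Finset.card_image_of_injective _
    (fun i j hij => Option.some.inj (Sum.inr.inj (h.1 hij)))]
  simp

lemma CopyAt.clique5 {t : ℕ} {f : Fin 5 ⊕ Option (Fin 6) → V} (h : CopyAt G t f) :
    (P G t).IsClique (part5 f : Set V) := by
  intro u hu v hv huv
  rw [Finset.mem_coe, mem_part5] at hu hv
  obtain ⟨i, rfl⟩ := hu
  obtain ⟨j, rfl⟩ := hv
  exact h.2 _ _ (show i ≠ j from fun hij => huv (by rw [hij]))

lemma CopyAt.clique6 {t : ℕ} {f : Fin 5 ⊕ Option (Fin 6) → V} (h : CopyAt G t f) :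
    (P G t).IsClique (part6 f : Set V) := by
  intro u hu v hv huv
  rw [Finset.mem_coe, mem_part6] at hu hv
  obtain ⟨i, rfl⟩ := hu
  obtain ⟨j, rfl⟩ := hv
  exact h.2 _ _ (show i ≠ j from fun hij => huv (by rw [hij]))

omit [Fintype V] in
/-- An edge of the copy is in the `K_5` part or meets the `K_6` part. -/
lemma edge_cases {f : Fin 5 ⊕ Option (Fin 6) → V} {p q : Fin 5 ⊕ Option (Fin 6)}
    (h : rule.Adj p q) : (f p ∈ part5 f ∧ f q ∈ part5 f) ∨ f p ∈ part6 f ∨ f q ∈ part6 f := by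
  rcases p with i | (_ | i) <;> rcases q with j | (_ | j)
  · exact Or.inl ⟨mem_part5.2 ⟨i, rfl⟩, mem_part5.2 ⟨j, rfl⟩⟩
  · exact h.elim
  · exact h.elim
  · exact h.elim
  · exact h.elim
  · exact Or.inr (Or.inr (mem_part6.2 ⟨j, rfl⟩))
  · exact h.elim
  · exact Or.inr (Or.inl (mem_part6.2 ⟨i, rfl⟩))
  · exact Or.inr (Or.inl (mem_part6.2 ⟨i, rfl⟩))

open Classical in
/-- Absorbing one more vertex. -/
lemma absorb {s : ℕ} {R C : Finset V} (h : State G s R C) {b x : V} (hb : b ∉ R) (hx : x ∈ R)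
    (hbx : (P G s).Adj b x) {K : Finset V} (hK : (P G s).IsClique (K : Set V)) (hK5 : K.card = 5)
    (hRK : Disjoint R K) (hbK : b ∉ K) : State G (s + 1) (insert b R) K := by
  have hR := h.1
  have hcR := h.2.2.2.2
  refine ⟨?_, hK.mono (process_le_succ rule G s), hK5, ?_, ?_⟩
  · rw [Finset.coe_insert, isClique_insert]
    refine ⟨hR.mono (process_le_succ rule G s), fun y hy hby => ?_⟩
    by_cases hxy : x = y
    · rw [← hxy]; exact process_le_succ rule G s hbx
    · have h4 : 4 ≤ ((R.erase x).erase y).card := by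
        rw [Finset.card_erase_of_mem, Finset.card_erase_of_mem hx]
        · omega
        · exact Finset.mem_erase.2 ⟨Ne.symm hxy, hy⟩
      obtain ⟨Q, hQ, hQ4⟩ := Finset.exists_subset_card_eq h4
      have hQ' : ∀ k ∈ Q, k ≠ y ∧ k ≠ x ∧ k ∈ R := by
        intro k hk
        have := hQ hk
        rw [Finset.mem_erase, Finset.mem_erase] at this
        exact this
      rw [Finset.disjoint_left] at hRK
      exact P_succ_adj (add_Y R K hR hK hK5.ge Q hQ4 (fun k hk => (hQ' k hk).2.2) hx hy hxy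
        (fun hk => (hQ' x hk).2.1 rfl) (fun hk => (hQ' y hk).1 rfl) hb hbx hbK (hRK hx) (hRK hy)
        (fun k hk => hRK (hQ' k hk).2.2))
  · rw [Finset.disjoint_insert_left]
    exact ⟨hbK, hRK⟩
  · rw [Finset.card_insert_of_notMem hb]; omega

open Classical in
/-- The key analysis of a stuck period. -/
lemma no_two_free {t L s : ℕ} {R C : Finset V} (h : State G t R C) (hts : t ≤ s)
    (hsL : s + 3 ≤ L) {b : V} (hbR : b ∉ R) (hb : ∃ x ∈ R, (P G t).Adj b x)
    (stuck : ∀ r, t ≤ r → r ≤ L → ∀ b ∉ R, (∃ x ∈ R, (P G r).Adj b x) → ∀ K : Finset V,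
      (P G r).IsClique (K : Set V) → K.card = 5 → Disjoint R K → b ∈ K)
    {u v : V} (hu : u ∉ R ∪ C) (hv : v ∉ R ∪ C) (hnew : New G (s + 1) u v) :
    ∃ u' v', New G s u' v' ∧ (u' ∈ R ∪ C ∨ v' ∈ R ∪ C) := by
  have hN : ∀ r, t ≤ r → r ≤ L → ∀ w ∉ R, (∃ x ∈ R, (P G r).Adj w x) → w ∈ C := by
    intro r h1 h2 w hw hwx
    exact stuck r h1 h2 w hw hwx C (h.mono h1).2.1 h.2.2.1 h.2.2.2.1
  have hb' : ∀ r, t ≤ r → ∃ x ∈ R, (P G r).Adj b x := by
    intro r hr
    obtain ⟨x, hx, hbx⟩ := hb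
    exact ⟨x, hx, process_mono rule G hr hbx⟩
  have hbC : b ∈ C := hN t le_rfl (by omega) b hbR hb
  -- the `K_6` part of any copy lies in `R ∪ C`
  have h6 : ∀ r, t ≤ r → r ≤ L → ∀ f, CopyAt G r f → part6 f ⊆ R ∪ C := by
    intro r h1 h2 f hf
    have hz : ∃ z ∈ part6 f, z ∈ R := by
      by_contra hcon
      push Not at hcon
      have h5 : 5 ≤ ((part6 f).erase b).card := by
        have := Finset.pred_card_le_card_erase (s := part6 f) (a := b)
        rw [hf.card6] at this
        exact this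
      obtain ⟨Q, hQ, hQ5⟩ := Finset.exists_subset_card_eq h5
      have hbQ := stuck r h1 h2 b hbR (hb' r h1) Q
        (hf.clique6.subset (fun x hx => Finset.mem_of_mem_erase (hQ hx))) hQ5
        (by
          rw [Finset.disjoint_right]
          intro x hx
          exact hcon x (Finset.mem_of_mem_erase (hQ hx)))
      exact (Finset.mem_erase.1 (hQ hbQ)).1 rfl
    obtain ⟨z, hz6, hzR⟩ := hz
    intro w hw
    rw [Finset.mem_union]
    by_cases hwR : w ∈ R
    · exact Or.inl hwR
    · right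
      apply hN r h1 h2 w hwR
      refine ⟨z, hzR, hf.clique6 hw hz6 ?_⟩
      rintro rfl; exact hwR hzR
  -- an edge outside `R ∪ C` of a copy lies in its `K_5` part, which avoids `R` and contains `b`
  have h5 : ∀ r, t ≤ r → r ≤ L → ∀ f, CopyAt G r f → ∀ p q, rule.Adj p q → f p ∉ R ∪ C →
      f q ∉ R ∪ C → f p ∈ part5 f ∧ f q ∈ part5 f ∧ Disjoint R (part5 f) ∧ b ∈ part5 f := by
    intro r h1 h2 f hf p q hpq hp hq
    have hpart : f p ∈ part5 f ∧ f q ∈ part5 f := by
      rcases edge_cases (f := f) hpq with h' | h' | h'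
      · exact h'
      · exact absurd (h6 r h1 h2 f hf h') hp
      · exact absurd (h6 r h1 h2 f hf h') hq
    have hdis : Disjoint R (part5 f) := by
      rw [Finset.disjoint_left]
      intro z hzR hz5
      have hpR : f p ∉ R := fun h' => hp (Finset.mem_union_left _ h')
      apply hp
      apply Finset.mem_union_right
      apply hN r h1 h2 _ hpR
      exact ⟨z, hzR, hf.clique5 hpart.1 hz5 (fun h' => hpR (h' ▸ hzR))⟩
    exact ⟨hpart.1, hpart.2, hdis, stuck r h1 h2 b hbR (hb' r h1) _ hf.clique5 hf.card5 hdis⟩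
  obtain ⟨f, hf, ⟨p, q, hpq, hpu, hqv⟩, p', q', hpq', hnew'⟩ := hnew.link
  refine ⟨f p', f q', hnew', ?_⟩
  by_contra hcon
  push Not at hcon
  obtain ⟨hp', hq'⟩ := hcon
  obtain ⟨-, -, hd1, hb1⟩ := h5 (s + 2) (by omega) (by omega) f hf p q hpq (hpu ▸ hu) (hqv ▸ hv)
  obtain ⟨hp5, hq5, -, -⟩ := h5 (s + 2) (by omega) (by omega) f hf p' q' hpq' hp' hq'
  have hu5 : u ∈ part5 f := by
    rw [← hpu]
    exact (h5 (s + 2) (by omega) (by omega) f hf p q hpq (hpu ▸ hu) (hqv ▸ hv)).1
  have hv5 : v ∈ part5 f := by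
    rw [← hqv]
    exact (h5 (s + 2) (by omega) (by omega) f hf p q hpq (hpu ▸ hu) (hqv ▸ hv)).2.1
  -- the copy that created the previous edge
  obtain ⟨f', hf', ⟨p1, q1, hpq1, hp1, hq1⟩, -⟩ := hnew'.copy
  have h5' := h5 (s + 1) (by omega) (by omega) f' hf' p1 q1 hpq1 (hp1 ▸ hp') (hq1 ▸ hq')
  rw [hp1, hq1] at h5'
  obtain ⟨hp5', hq5', hd2, hb2⟩ := h5'
  set K := part5 f with hKdef
  set K' := part5 f' with hK'def
  have hKK' : K ≠ K' := by
    intro he
    apply hnew.2
    apply hf'.clique5 (x := u) (y := v)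
    · rw [Finset.mem_coe, ← hK'def, ← he]; exact hu5
    · rw [Finset.mem_coe, ← hK'def, ← he]; exact hv5
    · exact hnew.1.ne
  have hunion : 6 ≤ (K ∪ K').card := by
    by_contra hlt
    push Not at hlt
    have e1 : K = K ∪ K' := Finset.eq_of_subset_of_card_le Finset.subset_union_left
      (by rw [hf.card5]; omega)
    have e2 : K' = K ∪ K' := Finset.eq_of_subset_of_card_le Finset.subset_union_right
      (by rw [hf'.card5]; omega)
    exact hKK' (e1.trans e2.symm)
  set x := f p' with hx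
  set y := f q' with hy
  have hxy : (P G (s + 1)).Adj x y := hnew'.1
  have hxb : x ≠ b := by
    intro he
    exact hp' (Finset.mem_union_right _ (he ▸ hbC))
  have hyb : y ≠ b := by
    intro he
    exact hq' (Finset.mem_union_right _ (he ▸ hbC))
  have hmono : P G (s + 1) ≤ P G (s + 2) := process_le_succ rule G (s + 1)
  have hmono2 : P G (s + 2) ≤ P G (s + 3) := process_le_succ rule G (s + 2)
  rw [Finset.disjoint_right] at hd1 hd2
  have hclique : (P G (s + 3)).IsClique ((K ∪ K' : Finset V) : Set V) := by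
    have hcross : ∀ a ∈ K', a ∉ K → ∀ c ∈ K, c ∉ K' → (P G (s + 3)).Adj a c := by
      intro a ha haK c hc hcK'
      apply P_succ_adj
      apply add_K5 (x := x) (y := y) (z := b) (R := R)
      · refine ⟨fun hac => haK (hac ▸ hc), hmono hxy, ?_, ?_, ?_, ?_, ?_, ?_, ?_, ?_⟩
        · exact hmono (hf'.clique5 hq5' hb2 hyb)
        · exact hmono (hf'.clique5 hp5' hb2 hxb)
        · exact hmono (hf'.clique5 ha hp5' (fun h' => haK (h' ▸ hp5)))
        · exact hmono (hf'.clique5 ha hq5' (fun h' => haK (h' ▸ hq5)))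
        · exact hmono (hf'.clique5 ha hb2 (fun h' => haK (h' ▸ hb1)))
        · exact hf.clique5 hc hp5 (fun h' => hcK' (h' ▸ hp5'))
        · exact hf.clique5 hc hq5 (fun h' => hcK' (h' ▸ hq5'))
        · exact hf.clique5 hc hb1 (fun h' => hcK' (h' ▸ hb2))
      · exact (h.mono (by omega)).1
      · exact h.2.2.2.2
      · exact ⟨hd2 ha, hd1 hc, hd1 hp5, hd1 hq5, hbR⟩
    intro a ha c hc hac
    rw [Finset.mem_coe, Finset.mem_union] at ha hc
    by_cases haK : a ∈ K
    · by_cases hcK : c ∈ K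
      · exact hmono2 (hf.clique5 haK hcK hac)
      · have hcK' := hc.resolve_left hcK
        by_cases haK' : a ∈ K'
        · exact hmono2 (hmono (hf'.clique5 haK' hcK' hac))
        · exact (hcross c hcK' hcK a haK haK').symm
    · have haK' := ha.resolve_left haK
      by_cases hcK' : c ∈ K'
      · exact hmono2 (hmono (hf'.clique5 haK' hcK' hac))
      · exact hcross a haK' haK c (hc.resolve_right hcK') hcK'
  have h5card : 5 ≤ ((K ∪ K').erase b).card := by
    have := Finset.pred_card_le_card_erase (s := K ∪ K') (a := b)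
    omega
  obtain ⟨Q, hQ, hQ5⟩ := Finset.exists_subset_card_eq h5card
  have hbQ := stuck (s + 3) (by omega) hsL b hbR (hb' _ (by omega)) Q
    (hclique.subset (fun w hw => Finset.mem_of_mem_erase (hQ hw))) hQ5
    (by
      rw [Finset.disjoint_right]
      intro w hw
      rcases Finset.mem_union.1 (Finset.mem_of_mem_erase (hQ hw)) with h' | h'
      · exact hd1 h'
      · exact hd2 h')
  exact (Finset.mem_erase.1 (hQ hbQ)).1 rfl

end Pool.Agent.Q105.Boot
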