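import Mathlib
import Pool.Agent.Q105.Boot.Stuck

set_option autoImplicit false

/-!
# The running time of percolating graphs is at most linear for the rule graph
-/

open SimpleGraph

namespace Pool.Agent.Q105.Boot

variable {V : Type} [Fintype V] {G : SimpleGraph V}

lemma exists_new {s : ℕ} (h : s < tau rule G) : ∃ u v, New G s u v := by
  by_contra hcon
  push Not at hcon
  have : process rule G s = process rule G (s + 1) := by
    apply le_antisymm (process_le_succ rule G s)
    intro u v huv
    by_contra hn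
    exact hcon u v ⟨huv, hn⟩
  exact absurd (tau_le_of_eq rule G this) (by omega)

open Classical in
/-- Within linear time the clique grows by one vertex. -/
lemma grow {t : ℕ} {R C : Finset V} (h : State G t R C) (hR10 : R.card ≤ 10)
    (hcross : ∃ b ∉ R, ∃ x ∈ R, (P G t).Adj b x)
    (hrun : t + (60 * Fintype.card V + 4) < tau rule G) :
    ∃ R' C', State G (t + (60 * Fintype.card V + 4)) R' C' ∧ R'.card = R.card + 1 := by
  by_contra hcon
  push Not at hcon
  set n := Fintype.card V with hn
  obtain ⟨b, hbR, hb⟩ := hcross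
  have stuck : ∀ r, t ≤ r → r ≤ t + (60 * n + 3) → ∀ b ∉ R, (∃ x ∈ R, (P G r).Adj b x) →
      ∀ K : Finset V, (P G r).IsClique (K : Set V) → K.card = 5 → Disjoint R K → b ∈ K := by
    intro r h1 h2 b hb hx K hK hK5 hRK
    by_contra hbK
    obtain ⟨x, hx, hbx⟩ := hx
    have h3 := absorb (h.mono h1) hb hx hbx hK hK5 hRK hbK
    exact hcon _ _ (h3.mono (by omega)) (Finset.card_insert_of_notMem hb)
  let S : Finset V := R ∪ C
  have hS : S.card ≤ 15 := by
    refine (Finset.card_union_le _ _).trans ?_
    rw [h.2.2.1]; omega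
  let E : ℕ → Set (V × V) := fun s => {x | (P G s).Adj x.1 x.2 ∧ (x.1 ∈ S ∨ x.2 ∈ S)}
  have hEmono : ∀ s s', s ≤ s' → E s ⊆ E s' := by
    intro s s' hss x hx
    exact ⟨process_mono rule G hss hx.1, hx.2⟩
  have hE : ∀ s, (E s).ncard ≤ 30 * n := by
    intro s
    have hsub : E s ⊆ (((S ×ˢ Finset.univ) ∪ (Finset.univ ×ˢ S) : Finset (V × V)) :
        Set (V × V)) := by
      intro x hx
      rw [Finset.mem_coe, Finset.mem_union, Finset.mem_product, Finset.mem_product]
      rcases hx.2 with h' | h'
      · exact Or.inl ⟨h', Finset.mem_univ _⟩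
      · exact Or.inr ⟨Finset.mem_univ _, h'⟩
    refine (Set.ncard_le_ncard hsub (Set.toFinite _)).trans ?_
    rw [Set.ncard_coe_finset]
    refine (Finset.card_union_le _ _).trans ?_
    rw [Finset.card_product, Finset.card_product, Finset.card_univ, ← hn]
    nlinarith
  have hstep : ∀ s, t ≤ s → s + 3 ≤ t + (60 * n + 3) → (E s).ncard < (E (s + 2)).ncard := by
    intro s h1 h2
    have hmeet : ∃ r, s ≤ r ∧ r ≤ s + 1 ∧ ∃ u v, New G r u v ∧ (u ∈ S ∨ v ∈ S) := by
      obtain ⟨u, v, hnew⟩ := exists_new (G := G) (s := s + 1) (by omega)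
      by_cases hu : u ∈ S
      · exact ⟨s + 1, by omega, le_rfl, u, v, hnew, Or.inl hu⟩
      by_cases hv : v ∈ S
      · exact ⟨s + 1, by omega, le_rfl, u, v, hnew, Or.inr hv⟩
      obtain ⟨u', v', h3, h4⟩ := no_two_free h h1 h2 hbR hb stuck hu hv hnew
      exact ⟨s, le_rfl, by omega, u', v', h3, h4⟩
    obtain ⟨r, hr1, hr2, u, v, hnew, hmem⟩ := hmeet
    apply Set.ncard_lt_ncard _ (Set.toFinite _)
    refine ⟨hEmono _ _ (by omega), fun hsub => ?_⟩
    have h5 : (u, v) ∈ E (s + 2) := hEmono (r + 1) _ (by omega) ⟨hnew.1, hmem⟩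
    exact hnew.2 (process_mono rule G hr1 (hsub h5).1)
  have hcount : ∀ j, j ≤ 30 * n + 1 → j ≤ (E (t + 2 * j)).ncard := by
    intro j
    induction j with
    | zero => intro _; exact Nat.zero_le _
    | succ j ih =>
      intro hj
      have h1 := ih (by omega)
      have h2 := hstep (t + 2 * j) (by omega) (by omega)
      have h3 : t + 2 * (j + 1) = t + 2 * j + 2 := by ring
      rw [h3]
      omega
  have h1 := hcount (30 * n + 1) le_rfl
  have h2 := hE (t + 2 * (30 * n + 1))
  omega

open Classical in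
/-- A clique with at least eleven vertices absorbs a new vertex in every round. -/
lemma unstoppable {t : ℕ} {R : Finset V} (hR : (P G t).IsClique (R : Set V))
    (hc : 11 ≤ R.card) {b x : V} (hb : b ∉ R) (hx : x ∈ R) (hbx : (P G t).Adj b x) :
    (P G (t + 1)).IsClique ((insert b R : Finset V) : Set V) := by
  rw [Finset.coe_insert, isClique_insert]
  refine ⟨hR.mono (process_le_succ rule G t), fun y hy hby => ?_⟩
  by_cases hxy : x = y
  · rw [← hxy]; exact process_le_succ rule G t hbx
  · have h9 : 9 ≤ ((R.erase x).erase y).card := by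
      rw [Finset.card_erase_of_mem, Finset.card_erase_of_mem hx]
      · omega
      · exact Finset.mem_erase.2 ⟨Ne.symm hxy, hy⟩
    obtain ⟨Q, hQ, hQ4⟩ := Finset.exists_subset_card_eq (show 4 ≤ _ by omega : 4 ≤
      ((R.erase x).erase y).card)
    let C := ((R.erase x).erase y) \ Q
    have hC : 5 ≤ C.card := by
      rw [Finset.card_sdiff_of_subset hQ]; omega
    have hCR : ∀ k ∈ C, k ≠ y ∧ k ≠ x ∧ k ∈ R ∧ k ∉ Q := by
      intro k hk
      have h1 := (Finset.mem_sdiff.1 hk).1
      rw [Finset.mem_erase, Finset.mem_erase] at h1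
      exact ⟨h1.1, h1.2.1, h1.2.2, (Finset.mem_sdiff.1 hk).2⟩
    have hQ' : ∀ k ∈ Q, k ≠ y ∧ k ≠ x ∧ k ∈ R := by
      intro k hk
      have := hQ hk
      rw [Finset.mem_erase, Finset.mem_erase] at this
      exact this
    exact P_succ_adj (add_Y R C hR (hR.subset (fun k hk => (hCR k hk).2.2.1)) hC Q hQ4
      (fun k hk => (hQ' k hk).2.2) hx hy hxy (fun hk => (hQ' x hk).2.1 rfl)
      (fun hk => (hQ' y hk).1 rfl) hb hbx (fun hk => hb (hCR b hk).2.2.1)
      (fun hk => (hCR x hk).2.1 rfl) (fun hk => (hCR y hk).1 rfl)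
      (fun k hk hkC => (hCR k hkC).2.2.2 hk))

/-- In a percolating process every proper nonempty vertex set has a boundary edge. -/
lemma exists_cross (hperc : Percolates rule G) (t : ℕ) (R : Finset V) (hne : R.Nonempty)
    (hne' : ∃ v, v ∉ R) : ∃ b ∉ R, ∃ x ∈ R, (P G t).Adj b x := by
  by_contra hcon
  push Not at hcon
  have key : ∀ s, ∀ u ∈ (R : Set V), ∀ v ∉ (R : Set V), ¬ (P G (t + s)).Adj u v := by
    intro s
    induction s with
    | zero =>
      intro u hu v hv huv
      exact hcon v hv u hu huv.symm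
    | succ s ih =>
      intro u hu v hv huv
      rw [P, ← Nat.add_assoc, process_succ] at huv
      exact no_cross _ ih u hu v hv huv
  obtain ⟨x, hx⟩ := hne
  obtain ⟨v, hv⟩ := hne'
  apply key (tau rule G) x hx v hv
  have h1 : process rule G (tau rule G) ≤ P G (t + tau rule G) :=
    process_mono rule G (by omega)
  apply h1
  rw [hperc]
  show x ≠ v
  rintro rfl
  exact hv hx

open Classical in
/-- The first state. -/
lemma first_state (h : 0 < tau rule G) : ∃ R C, State G 2 R C ∧ R.card = 7 := by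
  obtain ⟨u, v, hnew⟩ := exists_new h
  obtain ⟨f, hf, -, -⟩ := hnew.copy
  have hC := hf.clique5
  have h6 := hf.clique6
  let b := f (Sum.inr none)
  let x := f (Sum.inr (some 0))
  have hb6 : b ∉ part6 f := by
    rw [mem_part6]
    rintro ⟨i, hi⟩
    have := hf.1 hi
    simp at this
  have hb5 : b ∉ part5 f := by
    rw [mem_part5]
    rintro ⟨i, hi⟩
    have := hf.1 hi
    simp at this
  have h56 : ∀ k ∈ part6 f, k ∉ part5 f := by
    intro k hk hk5
    rw [mem_part6] at hk
    rw [mem_part5] at hk5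
    obtain ⟨i, rfl⟩ := hk
    obtain ⟨j, hj⟩ := hk5
    have := hf.1 hj
    simp at this
  have hx : x ∈ part6 f := mem_part6.2 ⟨0, rfl⟩
  have hbx : (P G 1).Adj b x := hf.2 _ _ (show (0 : Fin 6) = 0 ∨ (0 : Fin 6) = 1 from Or.inl rfl)
  refine ⟨insert b (part6 f), part5 f, ⟨?_, hC.mono (process_le_succ rule G 1), hf.card5, ?_, ?_⟩,
    ?_⟩
  · rw [Finset.coe_insert, isClique_insert]
    refine ⟨h6.mono (process_le_succ rule G 1), fun y hy hby => ?_⟩
    by_cases hxy : x = y
    · rw [← hxy]; exact process_le_succ rule G 1 hbx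
    · have h4 : 4 ≤ (((part6 f).erase x).erase y).card := by
        rw [Finset.card_erase_of_mem, Finset.card_erase_of_mem hx, hf.card6]
        exact Finset.mem_erase.2 ⟨Ne.symm hxy, hy⟩
      obtain ⟨Q, hQ, hQ4⟩ := Finset.exists_subset_card_eq h4
      have hQ' : ∀ k ∈ Q, k ≠ y ∧ k ≠ x ∧ k ∈ part6 f := by
        intro k hk
        have := hQ hk
        rw [Finset.mem_erase, Finset.mem_erase] at this
        exact this
      exact P_succ_adj (add_Y (part6 f) (part5 f) h6 hC hf.card5.ge Q hQ4
        (fun k hk => (hQ' k hk).2.2) hx hy hxy (fun hk => (hQ' x hk).2.1 rfl)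
        (fun hk => (hQ' y hk).1 rfl) hb6 hbx hb5 (h56 x hx) (h56 y hy)
        (fun k hk => h56 k (hQ' k hk).2.2))
  · rw [Finset.disjoint_insert_left]
    exact ⟨hb5, Finset.disjoint_left.2 h56⟩
  · rw [Finset.card_insert_of_notMem hb6, hf.card6]
  · rw [Finset.card_insert_of_notMem hb6, hf.card6]

lemma State.cross (hperc : Percolates rule G) {t : ℕ} {R C : Finset V} (h : State G t R C) :
    ∃ b ∉ R, ∃ x ∈ R, (P G t).Adj b x := by
  apply exists_cross hperc
  · rw [← Finset.card_pos]
    have := h.2.2.2.2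
    omega
  · have hC : C.Nonempty := by
      rw [← Finset.card_pos, h.2.2.1]; norm_num
    obtain ⟨v, hv⟩ := hC
    exact ⟨v, Finset.disjoint_right.1 h.2.2.2.1 hv⟩

/-- Percolating starting graphs with `n` vertices finish within `241 n + 18` rounds. -/
theorem tau_le_linear (hperc : Percolates rule G) :
    tau rule G ≤ 241 * Fintype.card V + 18 := by
  classical
  by_contra hbig
  push Not at hbig
  set n := Fintype.card V with hn
  obtain ⟨R1, C1, h1, hc1⟩ := first_state (G := G) (by omega)
  obtain ⟨R2, C2, h2, hc2⟩ := grow h1 (by omega) (h1.cross hperc) (by omega)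
  obtain ⟨R3, C3, h3, hc3⟩ := grow h2 (by omega) (h2.cross hperc) (by omega)
  obtain ⟨R4, C4, h4, hc4⟩ := grow h3 (by omega) (h3.cross hperc) (by omega)
  obtain ⟨R5, C5, h5, hc5⟩ := grow h4 (by omega) (h4.cross hperc) (by omega)
  have ht : 2 + (60 * n + 4) + (60 * n + 4) + (60 * n + 4) + (60 * n + 4) = 240 * n + 18 := by
    ring
  rw [← hn, ht] at h5
  have key : ∀ j, ∃ R : Finset V, (P G (240 * n + 18 + j)).IsClique (R : Set V) ∧
      11 ≤ R.card ∧ (j ≤ R.card ∨ ∀ v, v ∈ R) := by
    intro j
    induction j with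
    | zero => exact ⟨R5, h5.1, by omega, Or.inl (Nat.zero_le _)⟩
    | succ j ih =>
      obtain ⟨R, hR, hc, hj⟩ := ih
      by_cases hall : ∀ v, v ∈ R
      · exact ⟨R, hR.mono (process_le_succ rule G _), hc, Or.inr hall⟩
      · push Not at hall
        obtain ⟨b, hb, x, hx, hbx⟩ := exists_cross hperc (240 * n + 18 + j) R
          (by rw [← Finset.card_pos]; omega) hall
        refine ⟨insert b R, unstoppable hR hc hb hx hbx, ?_, Or.inl ?_⟩
        · rw [Finset.card_insert_of_notMem hb]; omega
        · rw [Finset.card_insert_of_notMem hb]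
          rcases hj with hj | hj
          · omega
          · exact absurd (hj b) hb
  obtain ⟨R, hR, -, hj⟩ := key n
  have hall : ∀ v, v ∈ R := by
    rcases hj with hj | hj
    · have : R = Finset.univ := by
        rw [← Finset.card_eq_iff_eq_univ]
        exact le_antisymm (Finset.card_le_univ _) (by rw [← hn]; exact hj)
      intro v
      rw [this]
      exact Finset.mem_univ v
    · exact hj
  have htop : P G (240 * n + 18 + n) = ⊤ := by
    apply top_unique
    intro u v huv
    exact hR (hall u) (hall v) huv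
  have hstable : process rule G (240 * n + 18 + n) = process rule G (240 * n + 18 + n + 1) := by
    apply le_antisymm (process_le_succ rule G _)
    rw [show process rule G (240 * n + 18 + n) = ⊤ from htop]
    exact le_top
  have := tau_le_of_eq rule G hstable
  omega

end Pool.Agent.Q105.Boot
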