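import Mathlib
import Pool.Agent.Q105.Boot.Greedy

set_option autoImplicit false

/-!
# The rule process on a slow chain with a disjoint `K_7`
-/

open SimpleGraph

namespace Pool.Agent.Q105.Boot

variable {V : Type} [Fintype V]

/-- A chain graph together with a disjoint complete graph on seven vertices. -/
def withK7 (A : SimpleGraph V) : SimpleGraph (V ⊕ Fin 7) := A ⊕g (⊤ : SimpleGraph (Fin 7))

omit [Fintype V] in
lemma withK7_inl {A : SimpleGraph V} {a b : V} :
    (withK7 A).Adj (Sum.inl a) (Sum.inl b) ↔ A.Adj a b := sum_adj_inl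

omit [Fintype V] in
lemma withK7_inr {A : SimpleGraph V} {i j : Fin 7} :
    (withK7 A).Adj (Sum.inr i) (Sum.inr j) ↔ i ≠ j := by
  rw [withK7, sum_adj_inr, top_adj]

omit [Fintype V] in
lemma withK7_inl_inr {A : SimpleGraph V} {a : V} {j : Fin 7} :
    ¬ (withK7 A).Adj (Sum.inl a) (Sum.inr j) := by
  simp [withK7]

omit [Fintype V] in
lemma withK7_inr_inl {A : SimpleGraph V} {a : V} {j : Fin 7} :
    ¬ (withK7 A).Adj (Sum.inr j) (Sum.inl a) := by
  simp [withK7]

lemma others5 (i j : Fin 5) (hij : i ≠ j) : ∃ k1 k2 k3 : Fin 5, k1 ≠ k2 ∧ k2 ≠ k3 ∧ k1 ≠ k3 ∧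
    i ≠ k1 ∧ i ≠ k2 ∧ i ≠ k3 ∧ j ≠ k1 ∧ j ≠ k2 ∧ j ≠ k3 := by
  revert i j
  decide

lemma others6 (i j : Fin 6) (hij : i ≠ j) : ∃ k1 k2 k3 : Fin 6, k1 ≠ k2 ∧ k2 ≠ k3 ∧ k1 ≠ k3 ∧
    i ≠ k1 ∧ i ≠ k2 ∧ i ≠ k3 ∧ j ≠ k1 ∧ j ≠ k2 ∧ j ≠ k3 := by
  revert i j
  decide

/-- Only the next edge of the chain is added. -/
lemma step_withK7 {T : ℕ} {G : ℕ → SimpleGraph V} {e : ℕ → V × V} (h : Slow T G e) {t : ℕ}
    (ht : t ≤ T) : step rule (withK7 (G t)) = withK7 (G (t + 1)) := by
  classical
  ext u v
  constructor
  · intro huv
    rw [step_adj] at huv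
    rcases huv with huv | ⟨huv, hcomp⟩
    · rcases u with a | i <;> rcases v with b | j
      · rw [withK7_inl] at huv ⊢
        exact h.le_succ ht huv
      · exact absurd huv withK7_inl_inr
      · exact absurd huv withK7_inr_inl
      · rw [withK7_inr] at huv ⊢
        exact huv
    by_cases hold : (withK7 (G t)).Adj u v
    · rcases u with a | i <;> rcases v with b | j
      · rw [withK7_inl] at hold ⊢
        exact h.le_succ ht hold
      · exact absurd hold withK7_inl_inr
      · exact absurd hold withK7_inr_inl
      · rw [withK7_inr] at hold ⊢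
        exact hold
    obtain ⟨f, hf, hadj, p, q, hpq, hfp, hfq⟩ := hcomp
    -- two different pairs of vertices cannot both be the new pair
    have huniq : ∀ a b c d : Fin 5 ⊕ Option (Fin 6), s(f a, f b) = s(u, v) →
        s(f c, f d) = s(u, v) → s(a, b) = s(c, d) := by
      intro a b c d h1 h2
      have h3 := h1.trans h2.symm
      rw [Sym2.eq_iff] at h3 ⊢
      rcases h3 with ⟨h3, h4⟩ | ⟨h3, h4⟩
      · exact Or.inl ⟨hf h3, hf h4⟩
      · exact Or.inr ⟨hf h3, hf h4⟩
    -- a pair in different parts is the new pair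
    have hmix : ∀ a b : Fin 5 ⊕ Option (Fin 6), rule.Adj a b → (f a).isLeft = true →
        (f b).isLeft = false → s(f a, f b) = s(u, v) := by
      intro a b hab h1 h2
      rcases hadj a b hab with h3 | h3
      · exfalso
        rcases hfa : f a with x | x
        · rcases hfb : f b with y | y
          · rw [hfb] at h2; simp at h2
          · rw [hfa, hfb] at h3; exact withK7_inl_inr h3
        · rw [hfa] at h1; simp at h1
      · exact h3
    -- the K6 part is in one side
    have hK6 : ∀ i j : Fin 6, (f (Sum.inr (some i))).isLeft = true →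
        (f (Sum.inr (some j))).isLeft = true := by
      intro i j hi
      by_contra hj
      rw [Bool.not_eq_true] at hj
      have hij : i ≠ j := by
        rintro rfl
        rw [hi] at hj
        exact Bool.noConfusion hj
      obtain ⟨k, -, -, -, -, -, hik, -, -, hjk, -, -⟩ := others6 i j hij
      have e1 := hmix (Sum.inr (some i)) (Sum.inr (some j)) hij hi hj
      by_cases hk : (f (Sum.inr (some k))).isLeft = true
      · have e2 := hmix (Sum.inr (some k)) (Sum.inr (some j)) hjk.symm hk hj
        have e3 := huniq _ _ _ _ e1 e2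
        rw [Sym2.congr_left] at e3
        exact hik (Option.some.inj (Sum.inr.inj e3))
      · rw [Bool.not_eq_true] at hk
        have e2 := hmix (Sum.inr (some i)) (Sum.inr (some k)) hik hi hk
        have e3 := huniq _ _ _ _ e1 e2
        rw [Sym2.congr_right] at e3
        exact hjk (Option.some.inj (Sum.inr.inj e3))
    -- it is not in the chain
    have hright : ∀ i : Fin 6, (f (Sum.inr (some i))).isLeft = false := by
      intro i
      by_contra hi
      rw [Bool.not_eq_false] at hi
      have hall : ∀ j, ∃ x, f (Sum.inr (some j)) = Sum.inl x := by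
        intro j
        exact Sum.isLeft_iff.1 (hK6 i j hi)
      choose g hg using hall
      have hginj : Function.Injective g := by
        intro a b hab
        have : f (Sum.inr (some a)) = f (Sum.inr (some b)) := by rw [hg, hg, hab]
        exact Option.some.inj (Sum.inr.inj (hf this))
      have hclique : (G (T + 1)).IsClique ((Finset.univ.image g : Finset V) : Set V) := by
        intro x hx y hy hxy
        rw [Finset.mem_coe, Finset.mem_image] at hx hy
        obtain ⟨a, -, rfl⟩ := hx
        obtain ⟨b, -, rfl⟩ := hy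
        have hab : a ≠ b := fun h' => hxy (by rw [h'])
        rcases hadj (Sum.inr (some a)) (Sum.inr (some b)) hab with h1 | h1
        · rw [hg, hg, withK7_inl] at h1
          exact h.mono (by omega) le_rfl h1
        · obtain ⟨k1, k2, k3, n12, n23, n13, a1, a2, a3, b1, b2, b3⟩ := others6 a b hab
          have hG : ∀ c d : Fin 6, c ≠ d → s(c, d) ≠ s(a, b) → (G t).Adj (g c) (g d) := by
            intro c d hcd hne
            rcases hadj (Sum.inr (some c)) (Sum.inr (some d)) hcd with h2 | h2
            · rw [hg, hg, withK7_inl] at h2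
              exact h2
            · exfalso
              apply hne
              have h3 := huniq _ _ _ _ h2 h1
              rw [Sym2.eq_iff] at h3 ⊢
              rcases h3 with ⟨h3, h4⟩ | ⟨h3, h4⟩
              · exact Or.inl ⟨Option.some.inj (Sum.inr.inj h3), Option.some.inj (Sum.inr.inj h4)⟩
              · exact Or.inr ⟨Option.some.inj (Sum.inr.inj h3), Option.some.inj (Sum.inr.inj h4)⟩
          have hcfg : Cfg (G t) (g a) (g b) (g k1) (g k2) (g k3) := by
            refine ⟨hxy, ?_, ?_, ?_, ?_, ?_, ?_, ?_, ?_, ?_⟩ <;> apply hG <;>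
              first
                | assumption
                | (rw [Ne, Sym2.eq_iff]; tauto)
          rcases h.only t (by omega) _ _ _ _ _ hcfg with h2 | ⟨-, h2⟩
          · exact h.mono (by omega) le_rfl h2
          · exact h.mono (by omega) le_rfl ((h.succ t ht _ _).2 (Or.inr h2))
      apply h.free _ hclique
      rw [Finset.card_image_of_injective _ hginj]
      simp
    -- the ear is also outside the chain
    have hear : (f (Sum.inr none)).isLeft = false := by
      by_contra hi
      rw [Bool.not_eq_false] at hi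
      have e1 := hmix (Sum.inr none) (Sum.inr (some 0)) (Or.inl rfl) hi (hright 0)
      have e2 := hmix (Sum.inr none) (Sum.inr (some 1)) (Or.inr rfl) hi (hright 1)
      have e3 := huniq _ _ _ _ e1 e2
      rw [Sym2.congr_right] at e3
      have := Option.some.inj (Sum.inr.inj e3)
      exact absurd this (by decide)
    have hYall : ∀ o : Option (Fin 6), ∃ x, f (Sum.inr o) = Sum.inr x := by
      intro o
      rcases o with _ | i
      · rw [← Sum.isRight_iff, ← Sum.not_isLeft, hear]; exact Bool.false_ne_true
      · rw [← Sum.isRight_iff, ← Sum.not_isLeft, hright i]; exact Bool.false_ne_true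
    choose y hy using hYall
    have hyinj : Function.Injective y := by
      intro a b hab
      have : f (Sum.inr a) = f (Sum.inr b) := by rw [hy, hy, hab]
      exact Sum.inr.inj (hf this)
    have hysurj : Function.Surjective y := by
      have : Function.Bijective y := by
        rw [Fintype.bijective_iff_injective_and_card]
        exact ⟨hyinj, by simp⟩
      exact this.2
    have hX : ∀ i : Fin 5, ∃ x, f (Sum.inl i) = Sum.inl x := by
      intro i
      rcases hfi : f (Sum.inl i) with x | x
      · exact ⟨x, rfl⟩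
      · exfalso
        obtain ⟨o, rfl⟩ := hysurj x
        rw [← hy] at hfi
        exact absurd (hf hfi) (by simp)
    choose g hg using hX
    rcases p with i | i <;> rcases q with j | j
    · -- the new edge is in the K5 part
      have hij : i ≠ j := hpq
      obtain ⟨k1, k2, k3, n12, n23, n13, a1, a2, a3, b1, b2, b3⟩ := others5 i j hij
      have hnew : s(f (Sum.inl i), f (Sum.inl j)) = s(u, v) := by rw [hfp, hfq]
      have hG : ∀ c d : Fin 5, c ≠ d → s(c, d) ≠ s(i, j) → (G t).Adj (g c) (g d) := by
        intro c d hcd hne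
        rcases hadj (Sum.inl c) (Sum.inl d) hcd with h2 | h2
        · rw [hg, hg, withK7_inl] at h2
          exact h2
        · exfalso
          apply hne
          have h3 := huniq _ _ _ _ h2 hnew
          rw [Sym2.eq_iff] at h3 ⊢
          rcases h3 with ⟨h3, h4⟩ | ⟨h3, h4⟩
          · exact Or.inl ⟨Sum.inl.inj h3, Sum.inl.inj h4⟩
          · exact Or.inr ⟨Sum.inl.inj h3, Sum.inl.inj h4⟩
      have hgij : g i ≠ g j := by
        intro h'
        apply huv
        rw [← hfp, ← hfq, hg, hg, h']
      have hcfg : Cfg (G t) (g i) (g j) (g k1) (g k2) (g k3) := by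
        refine ⟨hgij, ?_, ?_, ?_, ?_, ?_, ?_, ?_, ?_, ?_⟩ <;> apply hG <;>
          first
            | assumption
            | (rw [Ne, Sym2.eq_iff]; tauto)
      rw [← hfp, ← hfq, hg, hg, withK7_inl]
      rcases h.only t (by omega) _ _ _ _ _ hcfg with h2 | ⟨-, h2⟩
      · exact h.le_succ ht h2
      · exact (h.succ t ht _ _).2 (Or.inr h2)
    · rcases j with _ | j <;> exact hpq.elim
    · rcases i with _ | i <;> exact hpq.elim
    · exfalso
      apply hold
      rw [← hfp, ← hfq, hy, hy, withK7_inr]
      intro h'
      exact hpq.ne (congrArg _ (hyinj h'))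
  · intro huv
    rcases u with a | i <;> rcases v with b | j
    · rw [withK7_inl, h.succ t ht] at huv
      rcases huv with huv | huv
      · exact le_step _ _ (withK7_inl.2 huv)
      · have key : (step rule (withK7 (G t))).Adj (Sum.inl (e t).1) (Sum.inl (e t).2) := by
          obtain ⟨x, y, z, h0, h1, h2, h3, h4, h5, h6, h7, h8, h9⟩ := h.completes t ht
          apply add_K5 (x := Sum.inl x) (y := Sum.inl y) (z := Sum.inl z)
            (R := Finset.univ.image (Sum.inr : Fin 7 → V ⊕ Fin 7))
          · exact ⟨fun h' => h0 (Sum.inl.inj h'), withK7_inl.2 h1, withK7_inl.2 h2,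
              withK7_inl.2 h3, withK7_inl.2 h4, withK7_inl.2 h5, withK7_inl.2 h6,
              withK7_inl.2 h7, withK7_inl.2 h8, withK7_inl.2 h9⟩
          · intro c hc d hd hcd
            rw [Finset.mem_coe, Finset.mem_image] at hc hd
            obtain ⟨i, -, rfl⟩ := hc
            obtain ⟨j, -, rfl⟩ := hd
            rw [withK7_inr]
            exact fun h' => hcd (by rw [h'])
          · rw [Finset.card_image_of_injective _ Sum.inr_injective]
            simp
          · simp
        rw [Sym2.eq_iff] at huv
        rcases huv with ⟨rfl, rfl⟩ | ⟨rfl, rfl⟩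
        · exact key
        · exact key.symm
    · exact absurd huv withK7_inl_inr
    · exact absurd huv withK7_inr_inl
    · exact le_step _ _ (withK7_inr.2 (withK7_inr.1 huv))

/-- The running time on a slow chain. -/
lemma slow_le_tau {T : ℕ} {G : ℕ → SimpleGraph V} {e : ℕ → V × V} (h : Slow T G e) :
    T + 1 ≤ tau rule (withK7 (G 0)) := by
  have hproc : ∀ t, t ≤ T + 1 → process rule (withK7 (G 0)) t = withK7 (G t) := by
    intro t
    induction t with
    | zero => intro _; rfl
    | succ t ih =>
      intro ht
      rw [process_succ, ih (by omega), step_withK7 h (by omega)]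
  apply lt_tau_of_ne
  intro t ht heq
  rw [hproc t (by omega), hproc (t + 1) (by omega)] at heq
  apply h.notAdj t (by omega)
  rw [← withK7_inl, heq, withK7_inl]
  exact (h.succ t (by omega) _ _).2 (Or.inr rfl)

/-- For every constant `D` there is a starting graph whose running time exceeds `D` times the
number of its vertices. -/
theorem superlinear (D : ℕ) : ∃ (V : Type) (_ : Fintype V) (G : SimpleGraph V),
    D * Fintype.card V < tau rule G ∧ D ≤ Fintype.card V := by
  classical
  obtain ⟨d0, hd0⟩ : ∃ d0, d0 = 80 * D + 80 := ⟨_, rfl⟩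
  obtain ⟨B, hB⟩ : ∃ B, B = 4 * (1 + (d0 + 8) + (d0 + 8) * (d0 + 8)) := ⟨_, rfl⟩
  -- the chain lives on `2 h` vertices
  obtain ⟨h, hh⟩ : ∃ h, h = B + 8 := ⟨_, rfl⟩
  obtain ⟨T, hT⟩ : ∃ T, T = D * (2 * h + 7) := ⟨_, rfl⟩
  have hcard : Fintype.card (Fin (2 * h)) = 2 * h := Fintype.card_fin _
  obtain ⟨G, e, hs, -⟩ := exists_slow (V := Fin (2 * h)) d0 h (by omega)
    (by rw [hcard, ← hB]; omega) T (by
      rw [hT, hd0]
      nlinarith)
  refine ⟨Fin (2 * h) ⊕ Fin 7, inferInstance, withK7 (G 0), ?_, ?_⟩
  · have h1 := slow_le_tau hs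
    have h2 : Fintype.card (Fin (2 * h) ⊕ Fin 7) = 2 * h + 7 := by simp
    rw [h2, ← hT]
    omega
  · have h2 : Fintype.card (Fin (2 * h) ⊕ Fin 7) = 2 * h + 7 := by simp
    rw [h2]
    have : D ≤ B := by
      rw [hB, hd0]; nlinarith
    omega

end Pool.Agent.Q105.Boot
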